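import Pool.Agent.MP_187b32_an.Calc.Torus
import Pool.Agent.MP_187b32_an.Calc.VSob

/-! Sobolev inequalities in the space variable for maps with values in a space with a
positive semidefinite form. -/

set_option autoImplicit false
set_option linter.unusedSectionVars false

open Filter Topology MeasureTheory Pool.Agent.Boltz

noncomputable section

namespace Pool.Agent.MP_187b32_an

variable {F : Type*} [AddCommGroup F] [Module ℝ F] [TopologicalSpace F]
  [IsTopologicalAddGroup F] [ContinuousSMul ℝ F] [T2Space F]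

lemma abs_two_bilin_le (B : F →ₗ[ℝ] F →ₗ[ℝ] ℝ) (hs : ∀ a b, B a b = B b a)
    (hp : ∀ a, 0 ≤ B a a) {L : ℝ} (hL : 0 < L) (a b : F) :
    |B b a + B a b| ≤ B a a / L + L * B b b := by
  have h1 := hp (a + L • b)
  have h2 := hp (a - L • b)
  simp only [map_add, map_sub, map_smul, LinearMap.add_apply, LinearMap.sub_apply,
    LinearMap.smul_apply, smul_eq_mul] at h1 h2
  have e : B a a / L + L * B b b = (B a a + L * (L * B b b)) / L := by field_simp
  rw [e, le_div_iff₀ hL, hs b a] at *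
  rcases abs_cases (B a b + B a b) with h | h <;> rw [h.1] <;> nlinarith

lemma eight_terms_le {I : List (Fin 3) → ℝ} (hI : ∀ u, 0 ≤ I u) {L : ℝ} (hL : 0 < L) :
    8 / L ^ 3 * I [] + 4 / L * (I [0] + I [1] + I [2]) +
      2 * L * (I [0, 1] + I [0, 2] + I [1, 2]) + L ^ 3 * I [0, 1, 2] ≤
      8 * ∑ j ∈ Finset.range 4, L ^ (2 * j) / L ^ 3 * ∑ u ∈ words j, I u := by
  have h0 : ∑ u ∈ words 0, I u = I [] := by simp [words]
  have h1 : ∑ u ∈ words 1, I u = I [0] + I [1] + I [2] := by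
    rw [sum_words_succ]; simp [words, Fin.sum_univ_three]
  have h2 : I [0, 1] + I [0, 2] + I [1, 2] ≤ ∑ u ∈ words 2, I u := by
    have := Finset.sum_le_sum_of_subset_of_nonneg (s := {[0, 1], [0, 2], [1, 2]}) (t := words 2)
      (f := I) (fun u hu => by
        simp only [Finset.mem_insert, Finset.mem_singleton] at hu
        rcases hu with rfl | rfl | rfl <;> exact mem_words.2 rfl) fun u _ _ => hI u
    rw [Finset.sum_insert (by simp), Finset.sum_insert (by simp), Finset.sum_singleton] at this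
    linarith
  have h3 : I [0, 1, 2] ≤ ∑ u ∈ words 3, I u :=
    Finset.single_le_sum (f := I) (fun u _ => hI u) (mem_words.2 rfl)
  simp only [Finset.sum_range_succ, Finset.range_zero, Finset.sum_empty, h0, h1]
  have e0 : L ^ (2 * 0) / L ^ 3 = 1 / L ^ 3 := by simp
  have e1 : L ^ (2 * 1) / L ^ 3 = 1 / L := by field_simp
  have e2 : L ^ (2 * 2) / L ^ 3 = L := by field_simp
  have e3 : L ^ (2 * 3) / L ^ 3 = L ^ 3 := by field_simp
  rw [e0, e1, e2, e3]
  have a1 : 0 ≤ 1 / L * (I [0] + I [1] + I [2]) := by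
    have := hI [0]; have := hI [1]; have := hI [2]; positivity
  have a2 : 0 ≤ L * (I [0, 1] + I [0, 2] + I [1, 2]) := by
    have := hI [0, 1]; have := hI [0, 2]; have := hI [1, 2]; positivity
  have a3 : 0 ≤ L ^ 3 * I [0, 1, 2] := by have := hI [0, 1, 2]; positivity
  have b2 := mul_le_mul_of_nonneg_left h2 hL.le
  have b3 := mul_le_mul_of_nonneg_left h3 (pow_pos hL 3).le
  have e4 : 8 / L ^ 3 * I [] = 8 * (1 / L ^ 3 * I []) := by ring
  have e5 : 4 / L * (I [0] + I [1] + I [2]) = 4 * (1 / L * (I [0] + I [1] + I [2])) := by ring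
  rw [e4, e5]
  nlinarith

/-- Local scale-invariant Sobolev inequality on the cube with corner `x` and side `L`. -/
theorem sobolev_cube (B : F →ₗ[ℝ] F →ₗ[ℝ] ℝ) (hB : Continuous fun p : F × F => B p.1 p.2)
    (hs : ∀ a b, B a b = B b a) (hp : ∀ a, 0 ≤ B a a) {G : E3 → F} (hG : Sm G) {L : ℝ}
    (hL : 0 < L) (x : E3) :
    B (G x) (G x) ≤ 8 * ∑ j ∈ Finset.range 4, L ^ (2 * j) / L ^ 3 *
      ∑ u ∈ words j, ∫ y in cube x L, B (dXw u G y) (dXw u G y) := by
  have key := sobolev_cube_scalar (q := fun u y => B (dXw u G y) (dXw u G y))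
    (r := fun u i y => B (dX i (dXw u G) y) (dXw u G y) + B (dXw u G y) (dX i (dXw u G) y)) hL
    (fun u => (Sm.bilin B hB (hG.dXw u) (hG.dXw u)).cont)
    (fun u i y => by
      simpa using (HD.bilin B hB ((hG.dXw u).dif i y) ((hG.dXw u).dif i y)).hasDerivAt)
    (fun u i y => by
      rw [dXw_concat]
      exact abs_two_bilin_le B hs hp hL _ _) x
  exact key.trans (eight_terms_le (I := fun u => ∫ y in cube x L, B (dXw u G y) (dXw u G y))
    (fun u => integral_nonneg fun y => hp _) hL)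

/-- Sobolev inequality on the torus. -/
theorem sobolev_torus (B : F →ₗ[ℝ] F →ₗ[ℝ] ℝ) (hB : Continuous fun p : F × F => B p.1 p.2)
    (hs : ∀ a b, B a b = B b a) (hp : ∀ a, 0 ≤ B a a) {G : E3 → F} (hG : Sm G) (pG : Per G)
    (x : E3) :
    B (G x) (G x) ≤ 8 * ∑ j ∈ Finset.range 4,
      ∑ u ∈ words j, tint fun y => B (dXw u G y) (dXw u G y) := by
  have := sobolev_cube B hB hs hp hG one_pos x
  simp only [one_pow, div_one, one_mul] at this
  refine this.trans (le_of_eq ?_)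
  congr 1
  refine Finset.sum_congr rfl fun j _ => Finset.sum_congr rfl fun u _ => ?_
  exact integral_cube_eq_tint ((pG.dXw u).map fun a => B a a)
    (Sm.bilin B hB (hG.dXw u) (hG.dXw u)).cont x

/-- Weighted local Sobolev inequality: the weight `w j` (for `j` derivatives) is at least
`w₀ L^(2j-3)` on the cube with corner `x` and side `L ≤ 1`. -/
theorem sobolev_weighted (B : F →ₗ[ℝ] F →ₗ[ℝ] ℝ) (hB : Continuous fun p : F × F => B p.1 p.2)
    (hs : ∀ a b, B a b = B b a) (hp : ∀ a, 0 ≤ B a a) {G : E3 → F} (hG : Sm G) (pG : Per G)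
    {w : ℕ → E3 → ℝ} (hwp : ∀ j, Per (w j)) (hwc : ∀ j, Continuous (w j))
    (hw0 : ∀ j y, 0 ≤ w j y) {L w₀ : ℝ} (hL : 0 < L) (hL1 : L ≤ 1) (h0 : 0 ≤ w₀) (x : E3)
    (hw : ∀ j < 4, ∀ y ∈ cube x L, w₀ * (L ^ (2 * j) / L ^ 3) ≤ w j y) :
    w₀ * B (G x) (G x) ≤ 8 * ∑ j ∈ Finset.range 4,
      ∑ u ∈ words j, tint fun y => w j y * B (dXw u G y) (dXw u G y) := by
  refine (mul_le_mul_of_nonneg_left (sobolev_cube B hB hs hp hG hL x) h0).trans ?_
  rw [mul_left_comm, Finset.mul_sum]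
  gcongr with j hj
  rw [← mul_assoc, Finset.mul_sum]
  gcongr with u hu
  exact mul_integral_cube_le_tint ((pG.dXw u).map fun a => B a a)
    (Sm.bilin B hB (hG.dXw u) (hG.dXw u)).cont (fun y => hp _) (hwp j) (hwc j) (hw0 j) x hL1
    (hw j (Finset.mem_range.1 hj))

/-- The bilinear form of `nA`. -/
def nB (m : ℕ) : SV →ₗ[ℝ] SV →ₗ[ℝ] ℝ := ip.compl₂ (RR m : SV →ₗ[ℝ] SV)

lemma nB_apply (m : ℕ) (f g : SV) : nB m f g = ip f (RR m g) := rfl

lemma nB_eq_sum (m : ℕ) (f g : SV) : nB m f g = ∑ w ∈ words m, ip (apW w f) (apW w g) :=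
  ip_RR m f g

lemma nB_self (m : ℕ) (f : SV) : nB m f f = nA m f := (nA_eq_ip_RR m f).symm

lemma nB_comm (m : ℕ) (f g : SV) : nB m f g = nB m g f := by
  rw [nB_apply, nB_apply, ← ip_RR_symm, ip_comm]

lemma continuous_nB (m : ℕ) : Continuous fun p : SV × SV => nB m p.1 p.2 :=
  continuous_ip.comp (continuous_fst.prodMk ((RR m).continuous.comp continuous_snd))

theorem nA_le_cube (m : ℕ) {G : E3 → SV} (hG : Sm G) {L : ℝ} (hL : 0 < L) (x : E3) :
    nA m (G x) ≤ 8 * ∑ j ∈ Finset.range 4, L ^ (2 * j) / L ^ 3 *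
      ∑ u ∈ words j, ∫ y in cube x L, nA m (dXw u G y) := by
  simpa only [nB_self] using sobolev_cube (nB m) (continuous_nB m) (nB_comm m)
    (fun a => by rw [nB_self]; exact nA_nonneg _ _) hG hL x

theorem nA_le_torus (m : ℕ) {G : E3 → SV} (hG : Sm G) (pG : Per G) (x : E3) :
    nA m (G x) ≤ 8 * ∑ j ∈ Finset.range 4, ∑ u ∈ words j, tint fun y => nA m (dXw u G y) := by
  simpa only [nB_self] using sobolev_torus (nB m) (continuous_nB m) (nB_comm m)
    (fun a => by rw [nB_self]; exact nA_nonneg _ _) hG pG x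

theorem nA_le_weighted (m : ℕ) {G : E3 → SV} (hG : Sm G) (pG : Per G)
    {w : ℕ → E3 → ℝ} (hwp : ∀ j, Per (w j)) (hwc : ∀ j, Continuous (w j))
    (hw0 : ∀ j y, 0 ≤ w j y) {L w₀ : ℝ} (hL : 0 < L) (hL1 : L ≤ 1) (h0 : 0 ≤ w₀) (x : E3)
    (hw : ∀ j < 4, ∀ y ∈ cube x L, w₀ * (L ^ (2 * j) / L ^ 3) ≤ w j y) :
    w₀ * nA m (G x) ≤ 8 * ∑ j ∈ Finset.range 4,
      ∑ u ∈ words j, tint fun y => w j y * nA m (dXw u G y) := by
  simpa only [nB_self] using sobolev_weighted (nB m) (continuous_nB m) (nB_comm m)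
    (fun a => by rw [nB_self]; exact nA_nonneg _ _) hG pG hwp hwc hw0 hL hL1 h0 x hw

theorem sq_le_cube {φ : E3 → ℝ} (hφ : Sm φ) {L : ℝ} (hL : 0 < L) (x : E3) :
    φ x ^ 2 ≤ 8 * ∑ j ∈ Finset.range 4, L ^ (2 * j) / L ^ 3 *
      ∑ u ∈ words j, ∫ y in cube x L, dXw u φ y ^ 2 := by
  simpa only [sq, LinearMap.mul_apply'] using sobolev_cube (LinearMap.mul ℝ ℝ) continuous_mul
    mul_comm mul_self_nonneg hφ hL x

theorem sq_le_torus {φ : E3 → ℝ} (hφ : Sm φ) (pφ : Per φ) (x : E3) :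
    φ x ^ 2 ≤ 8 * ∑ j ∈ Finset.range 4, ∑ u ∈ words j, tint fun y => dXw u φ y ^ 2 := by
  simpa only [sq, LinearMap.mul_apply'] using sobolev_torus (LinearMap.mul ℝ ℝ) continuous_mul
    mul_comm mul_self_nonneg hφ pφ x

variable {T : Type*} [TopologicalSpace T]

lemma _root_.Pool.Agent.Boltz.SmC.ip {g h : T → E3 → SV} (hg : SmC g) (hh : SmC h) :
    SmC fun s x => ip (g s x) (h s x) := SmC.bilin _ continuous_ip hg hh

lemma _root_.Pool.Agent.Boltz.Sm.ip {G H : E3 → SV} (hG : Sm G) (hH : Sm H) :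
    Sm fun x => ip (G x) (H x) := Sm.bilin _ continuous_ip hG hH

lemma _root_.Pool.Agent.Boltz.SmD.ip {g g' h h' : ℝ → E3 → SV} (hg : SmD g g') (hh : SmD h h') :
    SmD (fun s x => ip (g s x) (h s x)) fun s x => ip (g' s x) (h s x) + ip (g s x) (h' s x) :=
  SmD.bilin _ continuous_ip hg hh

lemma _root_.Pool.Agent.Boltz.SmC.nA {g : T → E3 → SV} (hg : SmC g) (m : ℕ) :
    SmC fun s x => nA m (g s x) := by
  simpa only [nB_self] using SmC.bilin _ (continuous_nB m) hg hg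

lemma _root_.Pool.Agent.Boltz.Sm.nA {G : E3 → SV} (hG : Sm G) (m : ℕ) :
    Sm fun x => nA m (G x) := SmC.nA hG m

lemma _root_.Pool.Agent.Boltz.SmD.nA {g g' : ℝ → E3 → SV} (hg : SmD g g') (m : ℕ) :
    SmD (fun s x => nA m (g s x)) fun s x => 2 * nB m (g' s x) (g s x) := by
  refine ((SmD.bilin _ (continuous_nB m) hg hg).congr fun s x => nB_self _ _).congr_deriv
    fun s x => ?_
  rw [nB_comm m (g s x)]
  ring

/-- Locally uniform bounds in the norms `nA`. -/
lemma exists_bound_nA {g : T → E3 → SV} (hg : Continuous fun p : T × E3 => g p.1 p.2)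
    (hp : ∀ s, Per (g s)) (m : ℕ) {K : Set T} (hK : IsCompact K) :
    ∃ C, 0 < C ∧ ∀ s ∈ K, ∀ x, nA m (g s x) ≤ C := by
  obtain ⟨C, h0, h⟩ := exists_bound_of_per (ψ := fun s x => nA m (g s x))
    ((continuous_nA m).comp hg) (fun s => (hp s).map _) hK
  exact ⟨C, h0, fun s hs x => (le_abs_self _).trans (h s hs x)⟩

end Pool.Agent.MP_187b32_an
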