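import Pool.Agent.MP_187b32_an.Calc.Defs

/-! Integrals over cubes as iterated integrals and the local Sobolev inequality in scalar form. -/

set_option autoImplicit false

open Filter Topology MeasureTheory Set

namespace Pool.Agent.Boltz

theorem ev_coord (i j : Fin 3) : ev j i = if i = j then 1 else 0 := by simp [ev]

theorem sum_coord_ev (x : E3) : ∑ i, x i • ev i = x := by
  ext j
  simp [ev_coord, Fin.sum_univ_three]
  fin_cases j <;> simp

theorem measurableSet_cube (a : E3) (L : ℝ) : MeasurableSet (cube a L) := by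
  have : cube a L = ⋂ i, (fun x : E3 => x i) ⁻¹' Ioc (a i) (a i + L) := by
    ext x; simp [cube]
  rw [this]
  exact MeasurableSet.iInter fun i => measurableSet_Ioc.preimage (by fun_prop)

theorem cube_subset_closedBall (a : E3) (L : ℝ) : cube a L ⊆ Metric.closedBall a (3 * |L|) := by
  intro x hx
  rw [Metric.mem_closedBall, dist_eq_norm, ← sum_coord_ev (x - a)]
  refine (norm_sum_le _ _).trans ?_
  have : ∀ i, ‖(x - a) i • ev i‖ ≤ |L| := by
    intro i
    have h := hx i
    rw [norm_smul]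
    have : ‖ev i‖ = 1 := by simp [ev]
    rw [this, mul_one, Real.norm_eq_abs, PiLp.sub_apply, abs_of_pos (sub_pos.2 h.1)]
    linarith [h.2, le_abs_self L]
  calc ∑ i, ‖(x - a) i • ev i‖ ≤ ∑ _i : Fin 3, |L| := Finset.sum_le_sum fun i _ => this i
    _ = 3 * |L| := by simp

theorem integrableOn_cube {G : Type*} [NormedAddCommGroup G] {φ : E3 → G} (hφ : Continuous φ)
    (a : E3) (L : ℝ) : IntegrableOn φ (cube a L) :=
  (hφ.continuousOn.integrableOn_compact (isCompact_closedBall a _)).mono_set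
    (cube_subset_closedBall a L)

/-- Coordinates on three-space as a measurable equivalence. -/
noncomputable def coord3 : E3 ≃ᵐ ℝ × ℝ × ℝ :=
  (MeasurableEquiv.toLp 2 (Fin 3 → ℝ)).symm.trans
    ((MeasurableEquiv.piFinSuccAbove (fun _ : Fin 3 => ℝ) 0).trans
      ((MeasurableEquiv.refl ℝ).prodCongr MeasurableEquiv.finTwoArrow))

theorem coord3_apply (x : E3) : coord3 x = (x 0, x 1, x 2) := rfl

theorem coord3_symm (p : ℝ × ℝ × ℝ) :
    coord3.symm p = p.1 • ev 0 + p.2.1 • ev 1 + p.2.2 • ev 2 := by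
  apply coord3.injective
  rw [MeasurableEquiv.apply_symm_apply, coord3_apply]
  simp [ev_coord]

theorem measurePreserving_coord3 : MeasurePreserving coord3 volume volume :=
  (((MeasurePreserving.id volume).prod (volume_preserving_finTwoArrow ℝ)).comp
    (volume_preserving_piFinSuccAbove (fun _ : Fin 3 => ℝ) 0)).comp
    (PiLp.volume_preserving_ofLp (Fin 3))

/-- Average along a coordinate segment. -/
noncomputable def segI (i : Fin 3) (L : ℝ) (ψ : E3 → ℝ) (x : E3) : ℝ :=
  ∫ t in (0 : ℝ)..L, ψ (x + t • ev i)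

theorem continuous_segI (i : Fin 3) (L : ℝ) {ψ : E3 → ℝ} (hψ : Continuous ψ) :
    Continuous (segI i L ψ) :=
  intervalIntegral.continuous_parametric_intervalIntegral_of_continuous'
    (f := fun x t => ψ (x + t • ev i)) (hψ.comp (by fun_prop)) 0 L

theorem integral_cube_eq_segI {ψ : E3 → ℝ} (hψ : Continuous ψ) (a : E3) {L : ℝ} (hL : 0 ≤ L) :
    ∫ y in cube a L, ψ y = segI 0 L (segI 1 L (segI 2 L ψ)) a := by
  have hmp : MeasurePreserving (fun p : ℝ × ℝ × ℝ => a + coord3.symm p) volume volume :=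
    (measurePreserving_add_left volume a).comp measurePreserving_coord3.symm
  have hemb : MeasurableEmbedding (fun p : ℝ × ℝ × ℝ => a + coord3.symm p) :=
    (MeasurableEquiv.addLeft a).measurableEmbedding.comp coord3.symm.measurableEmbedding
  rw [← hmp.setIntegral_preimage_emb hemb]
  have hpre : (fun p : ℝ × ℝ × ℝ => a + coord3.symm p) ⁻¹' cube a L =
      Ioc 0 L ×ˢ (Ioc 0 L ×ˢ Ioc 0 L) := by
    ext p
    simp only [mem_preimage, cube, mem_ofPred_eq, coord3_symm, Fin.forall_fin_succ, mem_prod,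
      mem_Ioc]
    simp [ev_coord]
  rw [hpre]
  simp only [coord3_symm]
  have hc : Continuous fun p : ℝ × ℝ × ℝ => ψ (a + (p.1 • ev 0 + p.2.1 • ev 1 + p.2.2 • ev 2)) :=
    hψ.comp (by fun_prop)
  have hK : IsCompact (Icc (0 : ℝ) L ×ˢ (Icc (0 : ℝ) L ×ˢ Icc (0 : ℝ) L)) :=
    isCompact_Icc.prod (isCompact_Icc.prod isCompact_Icc)
  rw [Measure.volume_eq_prod, setIntegral_prod _ ((hc.continuousOn.integrableOn_compact hK).mono_set
    (prod_mono Ioc_subset_Icc_self (prod_mono Ioc_subset_Icc_self Ioc_subset_Icc_self)))]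
  unfold segI
  simp only [intervalIntegral.integral_of_le hL]
  congr 1
  funext s
  have hc2 : Continuous fun q : ℝ × ℝ => ψ (a + (s • ev 0 + q.1 • ev 1 + q.2 • ev 2)) :=
    hψ.comp (by fun_prop)
  rw [Measure.volume_eq_prod, setIntegral_prod _ ((hc2.continuousOn.integrableOn_compact
    (isCompact_Icc.prod isCompact_Icc)).mono_set
    (prod_mono Ioc_subset_Icc_self Ioc_subset_Icc_self))]
  simp only [add_assoc]

theorem segI_le {i : Fin 3} {L : ℝ} (hL : 0 ≤ L) {ψ χ₁ χ₂ : E3 → ℝ} (hψ : Continuous ψ)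
    (h₁ : Continuous χ₁) (h₂ : Continuous χ₂) {c₁ c₂ : ℝ} (h : ∀ y, ψ y ≤ c₁ * χ₁ y + c₂ * χ₂ y)
    (x : E3) : segI i L ψ x ≤ c₁ * segI i L χ₁ x + c₂ * segI i L χ₂ x := by
  unfold segI
  have i1 : IntervalIntegrable (fun t : ℝ => c₁ * χ₁ (x + t • ev i)) volume 0 L :=
    Continuous.intervalIntegrable (by fun_prop) _ _
  have i2 : IntervalIntegrable (fun t : ℝ => c₂ * χ₂ (x + t • ev i)) volume 0 L :=
    Continuous.intervalIntegrable (by fun_prop) _ _
  rw [← intervalIntegral.integral_const_mul, ← intervalIntegral.integral_const_mul,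
    ← intervalIntegral.integral_add i1 i2]
  exact intervalIntegral.integral_mono_on hL (Continuous.intervalIntegrable (by fun_prop) _ _)
    (i1.add i2) fun t _ => h _

/-- One-dimensional Sobolev inequality. -/
theorem sobolev_1d {ψ₀ ψ₁ r : ℝ → ℝ} {L : ℝ} (hL : 0 < L) (h₁ : Continuous ψ₁)
    (hd : ∀ t, HasDerivAt ψ₀ (r t) t) (hr : ∀ t, |r t| ≤ ψ₀ t / L + L * ψ₁ t) :
    ψ₀ 0 ≤ 2 / L * (∫ t in (0 : ℝ)..L, ψ₀ t) + L * ∫ t in (0 : ℝ)..L, ψ₁ t := by
  have h₀ : Continuous ψ₀ := continuous_iff_continuousAt.2 fun t => (hd t).continuousAt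
  set b : ℝ → ℝ := fun t => ψ₀ t / L + L * ψ₁ t with hb
  have hbc : Continuous b := by fun_prop
  have hb0 : ∀ t, 0 ≤ b t := fun t => (abs_nonneg _).trans (hr t)
  have hH : ∀ t, HasDerivAt (fun t => ψ₀ t + ∫ τ in (0 : ℝ)..t, b τ) (r t + b t) t := fun t =>
    (hd t).add ((hbc.integral_hasStrictDerivAt 0 t).hasDerivAt)
  have hmono : Monotone fun t => ψ₀ t + ∫ τ in (0 : ℝ)..t, b τ :=
    monotone_of_deriv_nonneg (fun t => (hH t).differentiableAt) fun t => by
      rw [(hH t).deriv]
      linarith [neg_abs_le (r t), hr t]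
  have key : ∀ t ∈ Icc (0 : ℝ) L, ψ₀ 0 ≤ ψ₀ t + ∫ τ in (0 : ℝ)..L, b τ := by
    intro t ht
    have h1 := hmono ht.1
    simp only [intervalIntegral.integral_same, add_zero] at h1
    have h2 : ∫ τ in (0 : ℝ)..t, b τ ≤ ∫ τ in (0 : ℝ)..L, b τ :=
      intervalIntegral.integral_mono_interval le_rfl ht.1 ht.2
        (Eventually.of_forall hb0) (hbc.intervalIntegrable _ _)
    linarith
  have h3 := intervalIntegral.integral_mono_on hL.le (μ := volume) (f := fun _ => ψ₀ 0)
    (g := fun t => ψ₀ t + ∫ τ in (0 : ℝ)..L, b τ) (continuous_const.intervalIntegrable _ _)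
    (Continuous.intervalIntegrable (by fun_prop) _ _) key
  rw [intervalIntegral.integral_add (h₀.intervalIntegrable _ _)
    (continuous_const.intervalIntegrable _ _)] at h3
  have h4 : ∫ τ in (0 : ℝ)..L, b τ =
      (∫ t in (0 : ℝ)..L, ψ₀ t) / L + L * ∫ t in (0 : ℝ)..L, ψ₁ t := by
    rw [hb, intervalIntegral.integral_add (Continuous.intervalIntegrable (by fun_prop) _ _)
      (Continuous.intervalIntegrable (by fun_prop) _ _), intervalIntegral.integral_div,
      intervalIntegral.integral_const_mul]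
  simp only [intervalIntegral.integral_const, sub_zero, smul_eq_mul, h4] at h3
  have h5 : L * ψ₀ 0 ≤ L * (2 / L * (∫ t in (0 : ℝ)..L, ψ₀ t) + L * ∫ t in (0 : ℝ)..L, ψ₁ t) := by
    refine h3.trans (le_of_eq ?_)
    field_simp
    ring
  exact le_of_mul_le_mul_left h5 hL

/-- Local Sobolev inequality for a family of continuous quadratic quantities `q u`. -/
theorem sobolev_cube_scalar {q : List (Fin 3) → E3 → ℝ} {r : List (Fin 3) → Fin 3 → E3 → ℝ}
    {L : ℝ} (hL : 0 < L) (hq : ∀ u, Continuous (q u))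
    (hd : ∀ u i x, HasDerivAt (fun t : ℝ => q u (x + t • ev i)) (r u i x) 0)
    (hr : ∀ u i x, |r u i x| ≤ q u x / L + L * q (u ++ [i]) x) (x : E3) :
    q [] x ≤ 8 / L ^ 3 * (∫ y in cube x L, q [] y) +
      4 / L * ((∫ y in cube x L, q [0] y) + (∫ y in cube x L, q [1] y) +
        ∫ y in cube x L, q [2] y) +
      2 * L * ((∫ y in cube x L, q [0, 1] y) + (∫ y in cube x L, q [0, 2] y) +
        ∫ y in cube x L, q [1, 2] y) + L ^ 3 * ∫ y in cube x L, q [0, 1, 2] y := by
  have s1 : ∀ u i y, q u y ≤ 2 / L * segI i L (q u) y + L * segI i L (q (u ++ [i])) y := by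
    intro u i y
    have := sobolev_1d (ψ₀ := fun t => q u (y + t • ev i))
      (ψ₁ := fun t => q (u ++ [i]) (y + t • ev i)) (r := fun t => r u i (y + t • ev i)) hL
      ((hq _).comp (by fun_prop)) (fun t => by
        have h := hd u i (y + t • ev i)
        have h2 : HasDerivAt (fun τ : ℝ => τ - t) 1 t := (hasDerivAt_id t).sub_const t
        have h3 := HasDerivAt.comp_of_eq t h h2 (by simp)
        simp only [mul_one] at h3
        refine h3.congr_of_eventuallyEq (Eventually.of_forall fun τ => ?_)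
        simp only [Function.comp, sub_smul]
        congr 1
        abel) (fun t => hr u i _)
    simpa [segI] using this
  have c2 : ∀ u, Continuous (segI 2 L (q u)) := fun u => continuous_segI _ _ (hq u)
  have c12 : ∀ u, Continuous (segI 1 L (segI 2 L (q u))) := fun u => continuous_segI _ _ (c2 u)
  have s2 : ∀ u y, segI 1 L (q u) y ≤ 2 / L * segI 1 L (segI 2 L (q u)) y +
      L * segI 1 L (segI 2 L (q (u ++ [2]))) y := fun u y =>
    segI_le hL.le (hq u) (c2 _) (c2 _) (s1 u 2) y
  have s3 : ∀ u, segI 0 L (segI 1 L (q u)) x ≤ 2 / L * (∫ y in cube x L, q u y) +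
      L * ∫ y in cube x L, q (u ++ [2]) y := fun u => by
    rw [integral_cube_eq_segI (hq _) x hL.le, integral_cube_eq_segI (hq _) x hL.le]
    exact segI_le hL.le (continuous_segI _ _ (hq u)) (c12 _) (c12 _) (s2 u) x
  have s4 : ∀ u, segI 0 L (q u) x ≤ 2 / L * segI 0 L (segI 1 L (q u)) x +
      L * segI 0 L (segI 1 L (q (u ++ [1]))) x := fun u =>
    segI_le hL.le (hq u) (continuous_segI _ _ (hq _)) (continuous_segI _ _ (hq _)) (s1 u 1) x
  have a0 := s1 [] 0 x
  have a1 := s4 []
  have a2 := s4 [0]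
  have b1 := s3 []
  have b2 := s3 [1]
  have b3 := s3 [0]
  have b4 := s3 [0, 1]
  simp only [List.nil_append, List.cons_append] at a0 a1 a2 b1 b2 b3 b4
  have hM : 0 < 2 / L := by positivity
  calc q [] x ≤ 2 / L * segI 0 L (q []) x + L * segI 0 L (q [0]) x := a0
    _ ≤ 2 / L * (2 / L * (2 / L * (∫ y in cube x L, q [] y) + L * ∫ y in cube x L, q [2] y) +
          L * (2 / L * (∫ y in cube x L, q [1] y) + L * ∫ y in cube x L, q [1, 2] y)) +
        L * (2 / L * (2 / L * (∫ y in cube x L, q [0] y) + L * ∫ y in cube x L, q [0, 2] y) +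
          L * (2 / L * (∫ y in cube x L, q [0, 1] y) + L * ∫ y in cube x L, q [0, 1, 2] y)) := by
        gcongr
        · exact a1.trans (by gcongr)
        · exact a2.trans (by gcongr)
    _ = _ := by field_simp; ring

end Pool.Agent.Boltz
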