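import Pool.Agent.MP_187b32_an.Calc.Torus

/-! The Hartley basis of the torus: Parseval identity and the spectral gap above a cut-off. -/

set_option autoImplicit false

open Filter Topology MeasureTheory Set Real

namespace Pool.Agent.Boltz

/-- The phase `2π n·x`. -/
noncomputable def phase (n : Fin 3 → ℤ) (x : E3) : ℝ := 2 * π * ∑ i, (n i : ℝ) * x i

theorem cas_eq (n : Fin 3 → ℤ) (x : E3) : cas n x = cos (phase n x) + sin (phase n x) := rfl

theorem phase_neg (n : Fin 3 → ℤ) (x : E3) : phase (-n) x = -phase n x := by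
  simp [phase]

theorem phase_add_smul (n : Fin 3 → ℤ) (x : E3) (i : Fin 3) (t : ℝ) :
    phase n (x + t • ev i) = phase n x + 2 * π * n i * t := by
  simp [phase, ev_coord, mul_add, Finset.sum_add_distrib]
  ring

theorem continuous_phase (n : Fin 3 → ℤ) : Continuous (phase n) := by
  unfold phase; fun_prop

theorem cas_neg (n : Fin 3 → ℤ) (x : E3) : cas (-n) x = cos (phase n x) - sin (phase n x) := by
  rw [cas_eq, phase_neg, cos_neg, sin_neg]; ring

theorem continuous_cas (n : Fin 3 → ℤ) : Continuous (cas n) :=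
  (continuous_cos.comp (continuous_phase n)).add (continuous_sin.comp (continuous_phase n))

theorem per_cas (n : Fin 3 → ℤ) : Per (cas n) := by
  intro i x
  have := phase_add_smul n x i 1
  rw [one_smul, mul_one, mul_comm (2 * π)] at this
  rw [cas_eq, cas_eq, this, cos_add_int_mul_two_pi, sin_add_int_mul_two_pi]

theorem hasDerivAt_cas (n : Fin 3 → ℤ) (i : Fin 3) (x : E3) :
    HasDerivAt (fun t : ℝ => cas n (x + t • ev i)) (2 * π * n i * cas (-n) x) 0 := by
  have h0 : HasDerivAt (fun t : ℝ => phase n x + 2 * π * n i * t) (2 * π * n i) 0 := by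
    simpa using ((hasDerivAt_id (0 : ℝ)).const_mul (2 * π * n i)).const_add (phase n x)
  simp only [cas_eq n, phase_add_smul, cas_neg]
  refine (h0.cos.add h0.sin).congr_deriv ?_
  simp only [mul_zero, add_zero]
  ring

theorem dX_cas (n : Fin 3 → ℤ) (i : Fin 3) : dX i (cas n) = fun x => 2 * π * n i * cas (-n) x :=
  funext fun x => dX_eq (hasDerivAt_cas n i x).hd

theorem sm_cas (n : Fin 3 → ℤ) : Sm (cas n) := by
  refine smC_coind (fun k : Unit → E3 → ℝ => ∃ (c : ℝ) (m : Fin 3 → ℤ),
    k = fun _ x => c * cas m x) ?_ ⟨1, n, by funext _ x; simp⟩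
  rintro k ⟨c, m, rfl⟩
  refine ⟨continuous_const.mul ((continuous_cas m).comp continuous_snd), fun i =>
    ⟨_, ⟨c * (2 * π * m i), -m, rfl⟩, fun _ x => ?_⟩⟩
  rw [mul_assoc]
  exact ((hasDerivAt_cas m i x).const_mul c).hd

theorem abs_cas_le (n : Fin 3 → ℤ) (x : E3) : |cas n x| ≤ 2 := by
  rw [cas_eq]
  refine (abs_add_le _ _).trans ?_
  linarith [abs_cos_le_one (phase n x), abs_sin_le_one (phase n x)]

attribute [local instance] instMeasureSpaceUnitAddCircle

theorem integral_cube_toLp {G : Type*} [NormedAddCommGroup G] [NormedSpace ℝ G] (φ : E3 → G) :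
    ∫ x in {x : Fin 3 → ℝ | ∀ i, x i ∈ Ioc ((0 : Fin 3 → ℝ) i) ((0 : Fin 3 → ℝ) i + 1)},
      φ (WithLp.toLp 2 x) = ∫ x in cube 0 1, φ x :=
  (PiLp.volume_preserving_toLp (Fin 3)).setIntegral_preimage_emb
    (MeasurableEquiv.toLp 2 (Fin 3 → ℝ)).measurableEmbedding φ (cube 0 1)

/-- Parseval identity in trigonometric form. -/
theorem hasSum_cos_sin_sq {φ : E3 → ℝ} (hc : Continuous φ) :
    HasSum (fun n : Fin 3 → ℤ => tint (fun x => φ x * cos (phase n x)) ^ 2 +
      tint (fun x => φ x * sin (phase n x)) ^ 2) (tint fun x => φ x ^ 2) := by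
  have hprob : IsProbabilityMeasure (volume : Measure UnitAddCircle) :=
    inferInstanceAs (IsProbabilityMeasure AddCircle.haarAddCircle)
  set f : UnitAddTorus (Fin 3) → ℂ := fun t =>
    (φ (WithLp.toLp 2 (UnitAddTorus.measurableEquivPiIoc (0 : Fin 3 → ℝ) t).1) : ℂ) with hf
  have hfm : Measurable f :=
    Complex.measurable_ofReal.comp (hc.measurable.comp
      ((MeasurableEquiv.toLp 2 (Fin 3 → ℝ)).measurable.comp
        (measurable_subtype_coe.comp (UnitAddTorus.measurableEquivPiIoc _).measurable)))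
  obtain ⟨C, hC⟩ := (isCompact_closedBall (0 : E3) (3 * |(1 : ℝ)|)).exists_bound_of_continuousOn
    hc.continuousOn
  have hmem : MemLp f 2 volume := by
    refine MemLp.of_bound hfm.aestronglyMeasurable C (Eventually.of_forall fun t => ?_)
    rw [hf, Complex.norm_real]
    exact hC _ (cube_subset_closedBall 0 1
      (UnitAddTorus.measurableEquivPiIoc (0 : Fin 3 → ℝ) t).2)
  have hS : MeasurableSet
      {x : Fin 3 → ℝ | ∀ i, x i ∈ Ioc ((0 : Fin 3 → ℝ) i) ((0 : Fin 3 → ℝ) i + 1)} :=
    MeasurableSet.univ_pi' fun i => measurableSet_Ioc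
  have hfx : ∀ x ∈ {x : Fin 3 → ℝ | ∀ i, x i ∈ Ioc ((0 : Fin 3 → ℝ) i) ((0 : Fin 3 → ℝ) i + 1)},
      f (fun i => x i) = φ (WithLp.toLp 2 x) := by
    intro x hx
    simp only [hf, UnitAddTorus.measurableEquivPiIoc, MeasurableEquiv.trans_apply]
    congr 3
    funext i
    exact congrArg Subtype.val (AddCircle.equivIoc_coe_eq (hx i))
  have main := UnitAddTorus.hasSum_sq_mFourierCoeff (hmem.toLp f)
  have e1 : ∫ t, ‖hmem.toLp f t‖ ^ 2 = tint fun x => φ x ^ 2 := by
    rw [integral_congr_ae (g := fun t => ‖f t‖ ^ 2) (by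
      filter_upwards [hmem.coeFn_toLp] with t ht using by rw [ht]),
      UnitAddTorus.integral_preimage _ 0, tint, ← integral_cube_toLp]
    refine setIntegral_congr_fun hS fun x hx => ?_
    simp only [hfx x hx, Complex.norm_real, Real.norm_eq_abs, sq_abs]
  have e2 : ∀ n, UnitAddTorus.mFourierCoeff (hmem.toLp f) n =
      (tint (fun x => φ x * cos (phase n x)) : ℂ) -
        (tint (fun x => φ x * sin (phase n x)) : ℂ) * Complex.I := by
    intro n
    have h1 : UnitAddTorus.mFourierCoeff (hmem.toLp f) n = UnitAddTorus.mFourierCoeff f n :=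
      integral_congr_ae (by
        filter_upwards [hmem.coeFn_toLp] with t ht using by rw [ht])
    have hp := continuous_phase n
    rw [h1, UnitAddTorus.mFourierCoeff_eq_integral f n 0, tint, tint, ← integral_complex_ofReal,
      ← integral_complex_ofReal, ← integral_mul_const,
      ← integral_sub (integrableOn_cube (by fun_prop) 0 1) (integrableOn_cube (by fun_prop) 0 1),
      ← integral_cube_toLp]
    refine setIntegral_congr_fun hS fun x hx => ?_
    have h2 : UnitAddTorus.mFourier (-n) (fun i => (x i : UnitAddCircle)) =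
        Complex.exp ((-phase n (WithLp.toLp 2 x) : ℝ) * Complex.I) := by
      simp only [UnitAddTorus.mFourier, ContinuousMap.coe_mk, fourier_coe_apply,
        ← Complex.exp_sum, phase]
      congr 1
      simp [Fin.sum_univ_three]
      ring
    simp only [hfx x hx, h2, Complex.exp_mul_I, smul_eq_mul]
    push_cast
    rw [Complex.cos_neg, Complex.sin_neg]
    ring
  rw [e1] at main
  refine main.congr_fun fun n => ?_
  rw [e2, Complex.sq_norm, Complex.normSq_apply]
  simp
  ring

/-- Parseval identity for the Hartley basis. -/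
theorem hasSum_cas_sq {φ : E3 → ℝ} (hc : Continuous φ) :
    HasSum (fun n : Fin 3 → ℤ => tint (fun x => φ x * cas n x) ^ 2) (tint fun x => φ x ^ 2) := by
  have main := hasSum_cos_sin_sq hc
  set a : (Fin 3 → ℤ) → ℝ := fun n => tint fun x => φ x * cos (phase n x) with ha
  set b : (Fin 3 → ℤ) → ℝ := fun n => tint fun x => φ x * sin (phase n x) with hb
  have hs : Summable fun n => 2 * (a n * b n) := by
    refine Summable.of_norm_bounded main.summable fun n => ?_
    rw [Real.norm_eq_abs, abs_le]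
    constructor
    · nlinarith [sq_nonneg (a n + b n)]
    · nlinarith [sq_nonneg (a n - b n)]
  have hodd : ∀ n, 2 * (a (-n) * b (-n)) = -(2 * (a n * b n)) := by
    intro n
    simp only [ha, hb, phase_neg, cos_neg, sin_neg, mul_neg, tint_neg]
  have h0 : HasSum (fun n => 2 * (a n * b n)) 0 := by
    have h1 := hs.hasSum
    have h2 := ((Equiv.neg (Fin 3 → ℤ)).hasSum_iff.2 h1).neg
    simp only [Function.comp, Equiv.neg_apply, hodd, neg_neg] at h2
    have h3 := h1.unique h2
    have h4 : ∑' n, 2 * (a n * b n) = 0 := by linarith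
    rwa [h4] at h1
  have h5 := main.add h0
  rw [add_zero] at h5
  refine h5.congr_fun fun n => ?_
  have hp := continuous_phase n
  have : tint (fun x => φ x * cas n x) = a n + b n := by
    rw [ha, hb, ← tint_add (by fun_prop) (by fun_prop)]
    exact tint_congr fun x => by rw [cas_eq]; ring
  rw [this]
  ring

/-- Parseval identity, bilinear form. -/
theorem hasSum_cas_mul {φ ψ : E3 → ℝ} (hφ : Continuous φ) (hψ : Continuous ψ) :
    HasSum (fun n : Fin 3 → ℤ => tint (fun x => φ x * cas n x) * tint (fun x => ψ x * cas n x))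
      (tint fun x => φ x * ψ x) := by
  have h1 := hasSum_cas_sq (hφ.add hψ)
  have h2 := hasSum_cas_sq (hφ.sub hψ)
  have h3 := (h1.sub h2).mul_left (1 / 4)
  have e : (1 / 4 : ℝ) * ((tint fun x => (φ + ψ) x ^ 2) - tint fun x => (φ - ψ) x ^ 2) =
      tint fun x => φ x * ψ x := by
    rw [← tint_sub (by fun_prop) (by fun_prop), ← tint_const_mul]
    exact tint_congr fun x => by simp; ring
  rw [e] at h3
  refine h3.congr_fun fun n => ?_
  have hc := continuous_cas n
  simp only [Pi.add_apply, Pi.sub_apply, add_mul, sub_mul]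
  rw [tint_add (by fun_prop) (by fun_prop), tint_sub (by fun_prop) (by fun_prop)]
  ring

theorem tint_dX_mul_cas {φ : E3 → ℝ} (hφ : Sm φ) (pφ : Per φ) (i : Fin 3) (n : Fin 3 → ℤ) :
    tint (fun x => dX i φ x * cas n x) = -(2 * π * n i) * tint fun x => φ x * cas (-n) x := by
  rw [tint_dX_mul hφ (sm_cas n) pφ (per_cas n), dX_cas, neg_mul, ← tint_const_mul]
  congr 1
  exact tint_congr fun x => by ring

/-- Spectral gap above the cut-off `N`. -/
theorem gap_cas {φ : E3 → ℝ} (hφ : Sm φ) (pφ : Per φ) (N : ℕ)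
    (h : ∀ n : Fin 3 → ℤ, (∀ i, |n i| ≤ N) → tint (fun x => φ x * cas n x) = 0) :
    (N + 1) * tint (fun x => φ x ^ 2) ≤ ∑ i, tint fun x => dX i φ x ^ 2 := by
  have h1 := ((Equiv.neg (Fin 3 → ℤ)).hasSum_iff.2 (hasSum_cas_sq hφ.cont)).mul_left
    ((N : ℝ) + 1)
  have h2 := hasSum_sum (s := Finset.univ) fun i _ => hasSum_cas_sq (hφ.dX i).cont
  refine hasSum_le (fun n => ?_) h1 h2
  simp only [Function.comp, Equiv.neg_apply, tint_dX_mul_cas hφ pφ]
  by_cases hn : ∀ i, |(-n) i| ≤ N
  · rw [h _ hn]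
    simp
  · push Not at hn
    obtain ⟨i, hi⟩ := hn
    refine le_trans ?_ (Finset.single_le_sum (f := fun i => (-(2 * π * n i) *
      tint fun x => φ x * cas (-n) x) ^ 2) (fun _ _ => sq_nonneg _) (Finset.mem_univ i))
    rw [mul_pow]
    gcongr
    have h3 : (N : ℝ) + 1 ≤ |(n i : ℝ)| := by
      have : (N : ℤ) + 1 ≤ |n i| := by simpa using hi
      exact_mod_cast this
    have h4 : (1 : ℝ) ≤ |(n i : ℝ)| := by linarith [Nat.cast_nonneg (α := ℝ) N]
    have h5 : (1 : ℝ) ≤ (2 * π) ^ 2 := by nlinarith [pi_gt_three]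
    rw [neg_sq, mul_pow, ← sq_abs (n i : ℝ)]
    nlinarith

end Pool.Agent.Boltz
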