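import Pool.Agent.MP_187b32_an.Calc.HD

/-! Closure properties of the smooth classes `SmC`, `Sm`, `SmD`, Leibniz and Schwarz rules. -/

set_option autoImplicit false
set_option linter.unusedSectionVars false

open Filter Topology

namespace Pool.Agent.Boltz

variable {F : Type*} [AddCommGroup F] [Module ℝ F] [TopologicalSpace F]
  [IsTopologicalAddGroup F] [ContinuousSMul ℝ F] [T2Space F]
variable {F₁ : Type*} [AddCommGroup F₁] [Module ℝ F₁] [TopologicalSpace F₁]
  [IsTopologicalAddGroup F₁] [ContinuousSMul ℝ F₁] [T2Space F₁]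
variable {F₂ : Type*} [AddCommGroup F₂] [Module ℝ F₂] [TopologicalSpace F₂]
  [IsTopologicalAddGroup F₂] [ContinuousSMul ℝ F₂] [T2Space F₂]
variable {T : Type*} [TopologicalSpace T]

@[simp] theorem dXw_nil (G : E3 → F) : dXw [] G = G := rfl

@[simp] theorem dXw_cons (i : Fin 3) (u : List (Fin 3)) (G : E3 → F) :
    dXw (i :: u) G = dXw u (dX i G) := rfl

theorem dXw_append (u w : List (Fin 3)) (G : E3 → F) : dXw (u ++ w) G = dXw w (dXw u G) := by
  induction u generalizing G with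
  | nil => rfl
  | cons i u ih => simp [ih]

theorem dXw_concat (u : List (Fin 3)) (i : Fin 3) (G : E3 → F) :
    dXw (u ++ [i]) G = dX i (dXw u G) := by rw [dXw_append]; rfl

theorem dX_eq {G : E3 → F} {i : Fin 3} {x : E3} {v : F}
    (h : HD (fun t : ℝ => G (x + t • ev i)) v 0) : dX i G x = v := by
  unfold HD at h
  simp only [zero_add, zero_smul, add_zero] at h
  exact h.limUnder_eq

/-- First partial derivatives exist everywhere. -/
def Dif (G : E3 → F) : Prop := ∀ i x, HD (fun t : ℝ => G (x + t • ev i)) (dX i G x) 0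

theorem Dif.line {G : E3 → F} (h : Dif G) (i : Fin 3) (x : E3) (t₀ : ℝ) :
    HD (fun t : ℝ => G (x + t • ev i)) (dX i G (x + t₀ • ev i)) t₀ := by
  rw [← hd_shift]
  refine (h i (x + t₀ • ev i)).congr fun s => ?_
  rw [add_smul, add_assoc]

theorem dif_of_hd {G : E3 → F} {G' : Fin 3 → E3 → F}
    (h : ∀ i x, HD (fun t : ℝ => G (x + t • ev i)) (G' i x) 0) : Dif G :=
  fun i x => (dX_eq (h i x)).symm ▸ h i x

theorem Dif.const (c : F) : Dif (fun _ => c) :=
  dif_of_hd (G' := fun _ _ => 0) fun _ _ => HD.const c 0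

theorem dX_const (i : Fin 3) (c : F) : dX i (fun _ => c) = fun _ => 0 :=
  funext fun _ => dX_eq (HD.const c 0)

theorem dX_add {G H : E3 → F} (hG : Dif G) (hH : Dif H) (i : Fin 3) :
    dX i (fun x => G x + H x) = fun x => dX i G x + dX i H x :=
  funext fun x => dX_eq ((hG i x).add (hH i x))

theorem dX_sub {G H : E3 → F} (hG : Dif G) (hH : Dif H) (i : Fin 3) :
    dX i (fun x => G x - H x) = fun x => dX i G x - dX i H x :=
  funext fun x => dX_eq ((hG i x).sub (hH i x))

theorem dX_neg {G : E3 → F} (hG : Dif G) (i : Fin 3) :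
    dX i (fun x => -G x) = fun x => -dX i G x :=
  funext fun x => dX_eq (hG i x).neg

theorem dX_const_smul {G : E3 → F} (hG : Dif G) (c : ℝ) (i : Fin 3) :
    dX i (fun x => c • G x) = fun x => c • dX i G x :=
  funext fun x => dX_eq ((hG i x).const_smul c)

theorem dX_sum {ι : Type*} (S : Finset ι) {G : ι → E3 → F} (hG : ∀ j ∈ S, Dif (G j)) (i : Fin 3) :
    dX i (fun x => ∑ j ∈ S, G j x) = fun x => ∑ j ∈ S, dX i (G j) x :=
  funext fun x => dX_eq (HD.sum S fun j hj => hG j hj i x)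

theorem dX_clm {G : E3 → F₁} (hG : Dif G) (A : F₁ →L[ℝ] F₂) (i : Fin 3) :
    dX i (fun x => A (G x)) = fun x => A (dX i G x) :=
  funext fun x => dX_eq ((hG i x).clm A)

theorem dX_bilin (B : F₁ →ₗ[ℝ] F₂ →ₗ[ℝ] F) (hB : Continuous fun p : F₁ × F₂ => B p.1 p.2)
    {G : E3 → F₁} {H : E3 → F₂} (hG : Dif G) (hH : Dif H) (i : Fin 3) :
    dX i (fun x => B (G x) (H x)) = fun x => B (dX i G x) (H x) + B (G x) (dX i H x) :=
  funext fun x => dX_eq (by simpa using HD.bilin B hB (hG i x) (hH i x))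

theorem dX_smul {c : E3 → ℝ} {G : E3 → F} (hc : Dif c) (hG : Dif G) (i : Fin 3) :
    dX i (fun x => c x • G x) = fun x => dX i c x • G x + c x • dX i G x :=
  funext fun x => dX_eq (by simpa using (hc i x).smul (hG i x))

theorem dX_mul {c d : E3 → ℝ} (hc : Dif c) (hd : Dif d) (i : Fin 3) :
    dX i (fun x => c x * d x) = fun x => dX i c x * d x + c x * dX i d x :=
  dX_smul hc hd i

theorem dX_smul_const {c : E3 → ℝ} (hc : Dif c) (v : F) (i : Fin 3) :
    dX i (fun x => c x • v) = fun x => dX i c x • v :=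
  funext fun x => dX_eq ((hc i x).smul_const v)

theorem Good.dif {g : T → E3 → F} (h : Good g) (s : T) : Dif (g s) := h.hd s

theorem SmC.good {g : T → E3 → F} (h : SmC g) : Good g := h []

theorem SmC.cont {g : T → E3 → F} (h : SmC g) : Continuous fun p : T × E3 => g p.1 p.2 :=
  h.good.cont

theorem SmC.dif {g : T → E3 → F} (h : SmC g) (s : T) : Dif (g s) := h.good.hd s

theorem SmC.dX {g : T → E3 → F} (h : SmC g) (i : Fin 3) : SmC fun s => dX i (g s) :=
  fun u => h (i :: u)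

theorem SmC.dXw {g : T → E3 → F} (h : SmC g) (u : List (Fin 3)) : SmC fun s => dXw u (g s) :=
  fun w => by simpa only [dXw_append] using h (u ++ w)

theorem SmC.congr {g g' : T → E3 → F} (h : SmC g) (e : ∀ s x, g s x = g' s x) : SmC g' := by
  have : g = g' := funext fun s => funext (e s)
  exact this ▸ h

theorem SmC.cont_slice {g : T → E3 → F} (h : SmC g) (s : T) : Continuous (g s) :=
  h.cont.comp (Continuous.prodMk_right s)

theorem SmC.cont_time {g : T → E3 → F} (h : SmC g) (x : E3) : Continuous fun s => g s x :=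
  h.cont.comp (Continuous.prodMk_left x)

/-- Coinduction principle for `SmC`. -/
theorem smC_coind (P : (T → E3 → F) → Prop)
    (hP : ∀ g, P g → Continuous (fun p : T × E3 => g p.1 p.2) ∧
      ∀ i, ∃ g', P g' ∧ ∀ s x, HD (fun t : ℝ => g s (x + t • ev i)) (g' s x) 0)
    {g : T → E3 → F} (hg : P g) : SmC g := by
  intro u
  induction u generalizing g with
  | nil =>
    obtain ⟨hc, hd⟩ := hP g hg
    choose g' _ hg' using hd
    exact ⟨hc, fun s => dif_of_hd (G' := fun i => g' i s) fun i x => hg' i s x⟩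
  | cons i u ih =>
    obtain ⟨g', h1, h2⟩ := (hP g hg).2 i
    have e : (fun s => Boltz.dX i (g s)) = g' := funext fun s => funext fun x => dX_eq (h2 s x)
    have := ih h1
    rw [← e] at this
    exact this

theorem smC_of_dX {g : T → E3 → F} (hc : Continuous fun p : T × E3 => g p.1 p.2)
    {g' : Fin 3 → T → E3 → F} (hg' : ∀ i, SmC (g' i))
    (hd : ∀ i s x, HD (fun t : ℝ => g s (x + t • ev i)) (g' i s x) 0) : SmC g := by
  refine smC_coind (fun k => k = g ∨ SmC k) ?_ (Or.inl rfl)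
  rintro k (rfl | hk)
  · exact ⟨hc, fun i => ⟨g' i, Or.inr (hg' i), hd i⟩⟩
  · exact ⟨hk.cont, fun i => ⟨_, Or.inr (hk.dX i), fun s x => hk.dif s i x⟩⟩

theorem SmC.reparam {T' : Type*} [TopologicalSpace T'] {g : T → E3 → F} (h : SmC g) {r : T' → T}
    (hr : Continuous r) : SmC fun s => g (r s) := fun u =>
  ⟨(h u).cont.comp ((hr.comp continuous_fst).prodMk continuous_snd), fun s => (h u).hd (r s)⟩

theorem SmC.slice {g : T → E3 → F} (h : SmC g) (s : T) : Sm (g s) :=
  h.reparam (r := fun _ : Unit => s) continuous_const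

theorem Sm.smC {G : E3 → F} (h : Sm G) : SmC fun _ : T => G :=
  SmC.reparam h (r := fun _ : T => ()) continuous_const

theorem Sm.dif {G : E3 → F} (h : Sm G) : Dif G := SmC.dif h ()

theorem Sm.cont {G : E3 → F} (h : Sm G) : Continuous G := SmC.cont_slice h ()

theorem Sm.dX {G : E3 → F} (h : Sm G) (i : Fin 3) : Sm (dX i G) := SmC.dX h i

theorem Sm.dXw {G : E3 → F} (h : Sm G) (u : List (Fin 3)) : Sm (dXw u G) := SmC.dXw h u

theorem SmC.of_time {φ : T → F} (hφ : Continuous φ) : SmC fun s (_ : E3) => φ s := by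
  refine smC_coind (fun k => ∃ ψ : T → F, Continuous ψ ∧ k = fun s _ => ψ s) ?_ ⟨φ, hφ, rfl⟩
  rintro k ⟨ψ, hψ, rfl⟩
  exact ⟨hψ.comp continuous_fst, fun i => ⟨fun _ _ => 0, ⟨fun _ => 0, continuous_const, rfl⟩,
    fun s _ => HD.const (ψ s) 0⟩⟩

theorem SmC.const (c : F) : SmC fun (_ : T) (_ : E3) => c := SmC.of_time continuous_const

theorem SmC.add {g h : T → E3 → F} (hg : SmC g) (hh : SmC h) : SmC fun s x => g s x + h s x := by
  refine smC_coind (fun k => ∃ g h, SmC g ∧ SmC h ∧ k = fun s x => g s x + h s x) ?_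
    ⟨g, h, hg, hh, rfl⟩
  rintro k ⟨g, h, hg, hh, rfl⟩
  exact ⟨hg.cont.add hh.cont, fun i => ⟨_, ⟨_, _, hg.dX i, hh.dX i, rfl⟩,
    fun s x => (hg.dif s i x).add (hh.dif s i x)⟩⟩

theorem SmC.clm {g : T → E3 → F₁} (hg : SmC g) (A : F₁ →L[ℝ] F₂) : SmC fun s x => A (g s x) := by
  refine smC_coind (fun k => ∃ g, SmC g ∧ k = fun s x => A (g s x)) ?_ ⟨g, hg, rfl⟩
  rintro k ⟨g, hg, rfl⟩
  exact ⟨A.continuous.comp hg.cont, fun i => ⟨_, ⟨_, hg.dX i, rfl⟩,
    fun s x => (hg.dif s i x).clm A⟩⟩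

theorem SmC.const_smul {g : T → E3 → F} (hg : SmC g) (c : ℝ) : SmC fun s x => c • g s x :=
  hg.clm (c • ContinuousLinearMap.id ℝ F)

theorem SmC.neg {g : T → E3 → F} (hg : SmC g) : SmC fun s x => -g s x :=
  hg.clm (-ContinuousLinearMap.id ℝ F)

theorem SmC.sub {g h : T → E3 → F} (hg : SmC g) (hh : SmC h) : SmC fun s x => g s x - h s x := by
  simpa only [sub_eq_add_neg] using hg.add hh.neg

theorem SmC.sum {ι : Type*} (S : Finset ι) {g : ι → T → E3 → F} (hg : ∀ j ∈ S, SmC (g j)) :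
    SmC fun s x => ∑ j ∈ S, g j s x := by
  classical
  induction S using Finset.induction_on with
  | empty => simpa using SmC.const (0 : F)
  | insert j S hj ih =>
    simp only [Finset.sum_insert hj]
    exact (hg j (Finset.mem_insert_self _ _)).add
      (ih fun i hi => hg i (Finset.mem_insert_of_mem hi))

/-- Finite sums of bilinear expressions in smooth families. -/
inductive BilSpan (B : F₁ →ₗ[ℝ] F₂ →ₗ[ℝ] F) : (T → E3 → F) → Prop
  | base (g : T → E3 → F₁) (h : T → E3 → F₂) (hg : SmC g) (hh : SmC h) :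
      BilSpan B fun s x => B (g s x) (h s x)
  | add (a b : T → E3 → F) (ha : BilSpan B a) (hb : BilSpan B b) :
      BilSpan B fun s x => a s x + b s x

theorem SmC.bilin (B : F₁ →ₗ[ℝ] F₂ →ₗ[ℝ] F) (hB : Continuous fun p : F₁ × F₂ => B p.1 p.2)
    {g : T → E3 → F₁} {h : T → E3 → F₂} (hg : SmC g) (hh : SmC h) :
    SmC fun s x => B (g s x) (h s x) := by
  refine smC_coind (BilSpan B) ?_ (BilSpan.base g h hg hh)
  intro k hk
  induction hk with
  | base g h hg hh =>
    refine ⟨hB.comp (hg.cont.prodMk hh.cont), fun i => ⟨_, BilSpan.add _ _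
      (BilSpan.base _ _ (hg.dX i) hh) (BilSpan.base _ _ hg (hh.dX i)), fun s x => ?_⟩⟩
    simpa using HD.bilin B hB (hg.dif s i x) (hh.dif s i x)
  | add a b _ _ iha ihb =>
    refine ⟨iha.1.add ihb.1, fun i => ?_⟩
    obtain ⟨a', ha1, ha2⟩ := iha.2 i
    obtain ⟨b', hb1, hb2⟩ := ihb.2 i
    exact ⟨_, BilSpan.add _ _ ha1 hb1, fun s x => (ha2 s x).add (hb2 s x)⟩

theorem SmC.smul {c : T → E3 → ℝ} {g : T → E3 → F} (hc : SmC c) (hg : SmC g) :
    SmC fun s x => c s x • g s x :=
  SmC.bilin (LinearMap.lsmul ℝ F) continuous_lsmul hc hg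

theorem SmC.mul {c d : T → E3 → ℝ} (hc : SmC c) (hd : SmC d) : SmC fun s x => c s x * d s x :=
  hc.smul hd

theorem SmC.smul_const {c : T → E3 → ℝ} (hc : SmC c) (v : F) : SmC fun s x => c s x • v :=
  hc.smul (SmC.const v)

theorem Sm.const (c : F) : Sm fun _ : E3 => c := SmC.const c

theorem Sm.add {G H : E3 → F} (hG : Sm G) (hH : Sm H) : Sm fun x => G x + H x := SmC.add hG hH

theorem Sm.sub {G H : E3 → F} (hG : Sm G) (hH : Sm H) : Sm fun x => G x - H x := SmC.sub hG hH

theorem Sm.neg {G : E3 → F} (hG : Sm G) : Sm fun x => -G x := SmC.neg hG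

theorem Sm.const_smul {G : E3 → F} (hG : Sm G) (c : ℝ) : Sm fun x => c • G x :=
  SmC.const_smul hG c

theorem Sm.clm {G : E3 → F₁} (hG : Sm G) (A : F₁ →L[ℝ] F₂) : Sm fun x => A (G x) := SmC.clm hG A

theorem Sm.sum {ι : Type*} (S : Finset ι) {G : ι → E3 → F} (hG : ∀ j ∈ S, Sm (G j)) :
    Sm fun x => ∑ j ∈ S, G j x := SmC.sum S (g := fun j _ => G j) hG

theorem Sm.bilin (B : F₁ →ₗ[ℝ] F₂ →ₗ[ℝ] F) (hB : Continuous fun p : F₁ × F₂ => B p.1 p.2)
    {G : E3 → F₁} {H : E3 → F₂} (hG : Sm G) (hH : Sm H) : Sm fun x => B (G x) (H x) :=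
  SmC.bilin B hB hG hH

theorem Sm.smul {c : E3 → ℝ} {G : E3 → F} (hc : Sm c) (hG : Sm G) : Sm fun x => c x • G x :=
  SmC.smul hc hG

theorem Sm.mul {c d : E3 → ℝ} (hc : Sm c) (hd : Sm d) : Sm fun x => c x * d x := SmC.mul hc hd

theorem Sm.smul_const {c : E3 → ℝ} (hc : Sm c) (v : F) : Sm fun x => c x • v :=
  SmC.smul_const hc v

/-! ### Words -/

theorem dXw_const (u : List (Fin 3)) (hu : u ≠ []) (c : F) : dXw u (fun _ => c) = fun _ => 0 := by
  induction u generalizing c with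
  | nil => exact absurd rfl hu
  | cons i u ih =>
    rw [dXw_cons, dX_const]
    by_cases h : u = []
    · subst h; rfl
    · exact ih h 0

theorem dXw_zero (u : List (Fin 3)) : dXw u (fun _ => (0 : F)) = fun _ => 0 := by
  by_cases h : u = []
  · subst h; rfl
  · exact dXw_const u h 0

theorem dXw_add {G H : E3 → F} (hG : Sm G) (hH : Sm H) (u : List (Fin 3)) :
    dXw u (fun x => G x + H x) = fun x => dXw u G x + dXw u H x := by
  induction u generalizing G H with
  | nil => rfl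
  | cons i u ih => rw [dXw_cons, dX_add hG.dif hH.dif, ih (hG.dX i) (hH.dX i)]; rfl

theorem dXw_clm {G : E3 → F₁} (hG : Sm G) (A : F₁ →L[ℝ] F₂) (u : List (Fin 3)) :
    dXw u (fun x => A (G x)) = fun x => A (dXw u G x) := by
  induction u generalizing G with
  | nil => rfl
  | cons i u ih => rw [dXw_cons, dX_clm hG.dif, ih (hG.dX i)]; rfl

theorem dXw_const_smul {G : E3 → F} (hG : Sm G) (c : ℝ) (u : List (Fin 3)) :
    dXw u (fun x => c • G x) = fun x => c • dXw u G x :=
  dXw_clm hG (c • ContinuousLinearMap.id ℝ F) u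

theorem dXw_neg {G : E3 → F} (hG : Sm G) (u : List (Fin 3)) :
    dXw u (fun x => -G x) = fun x => -dXw u G x :=
  dXw_clm hG (-ContinuousLinearMap.id ℝ F) u

theorem dXw_sub {G H : E3 → F} (hG : Sm G) (hH : Sm H) (u : List (Fin 3)) :
    dXw u (fun x => G x - H x) = fun x => dXw u G x - dXw u H x := by
  simp only [sub_eq_add_neg]
  rw [dXw_add hG hH.neg, dXw_neg hH]

theorem dXw_sum {ι : Type*} (S : Finset ι) {G : ι → E3 → F} (hG : ∀ j ∈ S, Sm (G j))
    (u : List (Fin 3)) : dXw u (fun x => ∑ j ∈ S, G j x) = fun x => ∑ j ∈ S, dXw u (G j) x := by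
  induction u generalizing G with
  | nil => rfl
  | cons i u ih =>
    rw [dXw_cons, dX_sum S fun j hj => (hG j hj).dif, ih fun j hj => (hG j hj).dX i]; rfl

theorem dXw_smul_const {c : E3 → ℝ} (hc : Sm c) (v : F) (u : List (Fin 3)) :
    dXw u (fun x => c x • v) = fun x => dXw u c x • v :=
  dXw_clm hc (ContinuousLinearMap.toSpanSingleton ℝ v) u

/-- Leibniz rule along a word. -/
theorem dXw_bilin (B : F₁ →ₗ[ℝ] F₂ →ₗ[ℝ] F) (hB : Continuous fun p : F₁ × F₂ => B p.1 p.2)
    {G : E3 → F₁} {H : E3 → F₂} (hG : Sm G) (hH : Sm H) (u : List (Fin 3)) :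
    dXw u (fun x => B (G x) (H x)) =
      fun x => ((splits u).map fun p => B (dXw p.1 G x) (dXw p.2 H x)).sum := by
  induction u generalizing G H with
  | nil => funext x; simp [splits]
  | cons i u ih =>
    rw [dXw_cons, dX_bilin B hB hG.dif hH.dif,
      dXw_add (Sm.bilin B hB (hG.dX i) hH) (Sm.bilin B hB hG (hH.dX i)),
      ih (hG.dX i) hH, ih hG (hH.dX i)]
    funext x
    simp [splits, Function.comp_def]

theorem dXw_smul {c : E3 → ℝ} {G : E3 → F} (hc : Sm c) (hG : Sm G) (u : List (Fin 3)) :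
    dXw u (fun x => c x • G x) =
      fun x => ((splits u).map fun p => dXw p.1 c x • dXw p.2 G x).sum :=
  dXw_bilin (LinearMap.lsmul ℝ F) continuous_lsmul hc hG u

theorem length_of_mem_splits {u : List (Fin 3)} {p : List (Fin 3) × List (Fin 3)}
    (hp : p ∈ splits u) : p.1.length + p.2.length = u.length := by
  induction u generalizing p with
  | nil => simp [splits] at hp; simp [hp]
  | cons i u ih =>
    simp only [splits, List.mem_append, List.mem_map] at hp
    rcases hp with ⟨q, hq, rfl⟩ | ⟨q, hq, rfl⟩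
    · have := ih hq; simp; omega
    · have := ih hq; simp; omega

theorem length_splits (u : List (Fin 3)) : (splits u).length = 2 ^ u.length := by
  induction u with
  | nil => rfl
  | cons i u ih => simp [splits, ih, pow_succ]; ring

/-! ### Periodicity -/

theorem Per.dX {G : E3 → F} (h : Per G) (i : Fin 3) : Per (dX i G) := by
  intro j x
  unfold Boltz.dX
  congr 1
  funext t
  rw [h j x, add_right_comm, h j]

theorem Per.dXw {G : E3 → F} (h : Per G) (u : List (Fin 3)) : Per (dXw u G) := by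
  induction u generalizing G with
  | nil => exact h
  | cons i u ih => exact ih (h.dX i)

theorem Per.map {α β : Type*} {G : E3 → α} (h : Per G) (φ : α → β) : Per fun x => φ (G x) :=
  fun i x => by simp only [h i x]

theorem Per.map₂ {α β γ : Type*} {G : E3 → α} {H : E3 → β} (hG : Per G) (hH : Per H)
    (φ : α → β → γ) : Per fun x => φ (G x) (H x) := fun i x => by simp only [hG i x, hH i x]

theorem Per.const {α : Type*} (c : α) : Per fun _ => c := fun _ _ => rfl

theorem Per.sum {ι α : Type*} [AddCommMonoid α] (S : Finset ι) {G : ι → E3 → α}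
    (h : ∀ j ∈ S, Per (G j)) : Per fun x => ∑ j ∈ S, G j x :=
  fun i x => Finset.sum_congr rfl fun j hj => h j hj i x

/-! ### Exchange of derivatives -/

section LC

variable [LocallyConvexSpace ℝ F]

theorem dX_comm {G : E3 → F} (hG : Sm G) (i j : Fin 3) : dX i (dX j G) = dX j (dX i G) := by
  funext x
  apply dX_eq
  have key := hd_swap (φ := fun σ t => G (x + σ • ev i + t • ev j))
    (φ₁ := fun σ t => dX i G (x + σ • ev i + t • ev j))
    (φ₁₂ := fun σ t => dX j (dX i G) (x + σ • ev i + t • ev j))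
    (φ₂ := fun σ => dX j G (x + σ • ev i)) (s := 0) ?_ ?_ ?_ ?_
  · simpa using key
  · intro σ t
    have := hG.dif.line i (x + t • ev j) σ
    simpa only [add_right_comm] using this
  · intro σ
    exact hG.dif j _
  · intro σ t
    exact (hG.dX i).dif.line j _ t
  · exact (((hG.dX i).dX j).cont.comp (by fun_prop)).continuousAt

theorem dXw_dX {G : E3 → F} (hG : Sm G) (u : List (Fin 3)) (i : Fin 3) :
    dXw u (dX i G) = dX i (dXw u G) := by
  induction u generalizing G with
  | nil => rfl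
  | cons j u ih => rw [dXw_cons, dXw_cons, dX_comm hG, ih (hG.dX j)]

theorem dXw_comm {G : E3 → F} (hG : Sm G) (u w : List (Fin 3)) :
    dXw u (dXw w G) = dXw w (dXw u G) := by
  induction w generalizing G with
  | nil => rfl
  | cons j w ih => rw [dXw_cons, dXw_cons, ih (hG.dX j), dXw_dX hG]

theorem dXw_perm {G : E3 → F} (hG : Sm G) {u w : List (Fin 3)} (h : u.Perm w) :
    dXw u G = dXw w G := by
  induction h generalizing G with
  | nil => rfl
  | cons i _ ih => exact ih (hG.dX i)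
  | swap i j u => simp only [dXw_cons]; rw [dX_comm hG]
  | trans _ _ ih1 ih2 => exact (ih1 hG).trans (ih2 hG)

theorem SmD.dX {g g' : ℝ → E3 → F} (h : SmD g g') (i : Fin 3) :
    SmD (fun s => dX i (g s)) (fun s => dX i (g' s)) := by
  refine ⟨h.sm.dX i, h.sm'.dX i, fun s x => ?_⟩
  have key := hd_swap (φ := fun σ t => g σ (x + t • ev i)) (φ₁ := fun σ t => g' σ (x + t • ev i))
    (φ₁₂ := fun σ t => Boltz.dX i (g' σ) (x + t • ev i))
    (φ₂ := fun σ => Boltz.dX i (g σ) x) (s := s) (fun σ t => h.hd σ _) (fun σ => h.sm.dif σ i x)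
    (fun σ t => (h.sm'.dif σ).line i x t)
    (((h.sm'.dX i).cont.comp (f := fun p : ℝ × ℝ => (p.1, x + p.2 • ev i))
      (by fun_prop)).continuousAt)
  simpa using key

theorem SmD.dXw {g g' : ℝ → E3 → F} (h : SmD g g') (u : List (Fin 3)) :
    SmD (fun s => dXw u (g s)) (fun s => dXw u (g' s)) := by
  induction u generalizing g g' with
  | nil => exact h
  | cons i u ih => exact ih (h.dX i)

end LC

/-! ### Curves -/

theorem SmD.congr_deriv {g g' g'' : ℝ → E3 → F} (h : SmD g g') (e : ∀ s x, g' s x = g'' s x) :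
    SmD g g'' := by
  have : g' = g'' := funext fun s => funext (e s)
  exact this ▸ h

theorem SmD.congr {g k g' : ℝ → E3 → F} (h : SmD g g') (e : ∀ s x, g s x = k s x) :
    SmD k g' := by
  have : g = k := funext fun s => funext (e s)
  exact this ▸ h

theorem Sm.smD {G : E3 → F} (h : Sm G) : SmD (fun _ => G) fun _ _ => 0 :=
  ⟨h.smC, SmC.const 0, fun s x => HD.const (G x) s⟩

theorem SmD.of_time {φ φ' : ℝ → F} (hφ : ∀ s, HD φ (φ' s) s) (hφ' : Continuous φ') :
    SmD (fun s _ => φ s) fun s _ => φ' s :=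
  ⟨SmC.of_time (continuous_iff_continuousAt.2 fun s => (hφ s).continuousAt), SmC.of_time hφ',
    fun s _ => hφ s⟩

theorem SmD.add {g g' h h' : ℝ → E3 → F} (hg : SmD g g') (hh : SmD h h') :
    SmD (fun s x => g s x + h s x) fun s x => g' s x + h' s x :=
  ⟨hg.sm.add hh.sm, hg.sm'.add hh.sm', fun s x => (hg.hd s x).add (hh.hd s x)⟩

theorem SmD.sub {g g' h h' : ℝ → E3 → F} (hg : SmD g g') (hh : SmD h h') :
    SmD (fun s x => g s x - h s x) fun s x => g' s x - h' s x :=
  ⟨hg.sm.sub hh.sm, hg.sm'.sub hh.sm', fun s x => (hg.hd s x).sub (hh.hd s x)⟩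

theorem SmD.neg {g g' : ℝ → E3 → F} (hg : SmD g g') :
    SmD (fun s x => -g s x) fun s x => -g' s x :=
  ⟨hg.sm.neg, hg.sm'.neg, fun s x => (hg.hd s x).neg⟩

theorem SmD.const_smul {g g' : ℝ → E3 → F} (hg : SmD g g') (c : ℝ) :
    SmD (fun s x => c • g s x) fun s x => c • g' s x :=
  ⟨hg.sm.const_smul c, hg.sm'.const_smul c, fun s x => (hg.hd s x).const_smul c⟩

theorem SmD.clm {g g' : ℝ → E3 → F₁} (hg : SmD g g') (A : F₁ →L[ℝ] F₂) :
    SmD (fun s x => A (g s x)) fun s x => A (g' s x) :=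
  ⟨hg.sm.clm A, hg.sm'.clm A, fun s x => (hg.hd s x).clm A⟩

theorem SmD.sum {ι : Type*} (S : Finset ι) {g g' : ι → ℝ → E3 → F}
    (hg : ∀ j ∈ S, SmD (g j) (g' j)) :
    SmD (fun s x => ∑ j ∈ S, g j s x) fun s x => ∑ j ∈ S, g' j s x :=
  ⟨SmC.sum S fun j hj => (hg j hj).sm, SmC.sum S fun j hj => (hg j hj).sm',
    fun s x => HD.sum S fun j hj => (hg j hj).hd s x⟩

theorem SmD.bilin (B : F₁ →ₗ[ℝ] F₂ →ₗ[ℝ] F) (hB : Continuous fun p : F₁ × F₂ => B p.1 p.2)
    {g g' : ℝ → E3 → F₁} {h h' : ℝ → E3 → F₂} (hg : SmD g g') (hh : SmD h h') :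
    SmD (fun s x => B (g s x) (h s x)) fun s x => B (g' s x) (h s x) + B (g s x) (h' s x) :=
  ⟨SmC.bilin B hB hg.sm hh.sm, (SmC.bilin B hB hg.sm' hh.sm).add (SmC.bilin B hB hg.sm hh.sm'),
    fun s x => HD.bilin B hB (hg.hd s x) (hh.hd s x)⟩

theorem SmD.smul {c c' : ℝ → E3 → ℝ} {g g' : ℝ → E3 → F} (hc : SmD c c') (hg : SmD g g') :
    SmD (fun s x => c s x • g s x) fun s x => c' s x • g s x + c s x • g' s x :=
  SmD.bilin (LinearMap.lsmul ℝ F) continuous_lsmul hc hg

theorem SmD.mul {c c' d d' : ℝ → E3 → ℝ} (hc : SmD c c') (hd : SmD d d') :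
    SmD (fun s x => c s x * d s x) fun s x => c' s x * d s x + c s x * d' s x :=
  hc.smul hd

theorem SmD.smul_const {c c' : ℝ → E3 → ℝ} (hc : SmD c c') (v : F) :
    SmD (fun s x => c s x • v) fun s x => c' s x • v :=
  ⟨hc.sm.smul_const v, hc.sm'.smul_const v, fun s x => (hc.hd s x).smul_const v⟩

end Pool.Agent.Boltz
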