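import Pool.Agent.MP_187b32_an.Calc.VSob

/-! Schwartz space is complete; limits and sums controlled by the norms `nA`. -/

set_option autoImplicit false
set_option linter.unusedSectionVars false

open Filter Topology MeasureTheory SchwartzMap Pool.Agent.Boltz
open scoped ContDiff

noncomputable section

namespace Pool.Agent.MP_187b32_an

section General

variable {D G : Type*} [NormedAddCommGroup D] [NormedSpace ℝ D] [NormedAddCommGroup G]
  [NormedSpace ℝ G] [CompleteSpace G]

lemma schwartz_exists_limit (u : ℕ → SchwartzMap D G)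
    (h : ∀ (k n : ℕ) (ε : ℝ), 0 < ε → ∃ N, ∀ a ≥ N, ∀ b ≥ N,
      SchwartzMap.seminorm ℝ k n (u a - u b) ≤ ε) : ∃ g, Tendsto u atTop (𝓝 g) := by
  have hsub : ∀ (f g : SchwartzMap D G) (m : ℕ) (x : D), iteratedFDeriv ℝ m (f - g : SchwartzMap D G) x =
      iteratedFDeriv ℝ m f x - iteratedFDeriv ℝ m g x := fun f g m x =>
    iteratedFDeriv_sub_apply (f.smooth m).contDiffAt (g.smooth m).contDiffAt
  have hc : ∀ m x, CauchySeq fun a => iteratedFDeriv ℝ m (u a) x := by
    intro m x
    rw [Metric.cauchySeq_iff]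
    intro ε hε
    obtain ⟨N, hN⟩ := h 0 m (ε / 2) (by positivity)
    refine ⟨N, fun a ha b hb => ?_⟩
    rw [dist_eq_norm, ← hsub]
    have := (norm_iteratedFDeriv_le_seminorm ℝ (u a - u b) m x).trans (hN a ha b hb)
    linarith
  choose p hp using fun x m => cauchySeq_tendsto_of_complete (hc m x)
  have key : ∀ (k m : ℕ) (ε : ℝ), 0 < ε → ∃ N, ∀ a ≥ N, ∀ x,
      ‖x‖ ^ k * ‖iteratedFDeriv ℝ m (u a) x - p x m‖ ≤ ε := by
    intro k m ε hε
    obtain ⟨N, hN⟩ := h k m ε hε
    refine ⟨N, fun a ha x => ?_⟩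
    have h1 : Tendsto (fun b => ‖x‖ ^ k * ‖iteratedFDeriv ℝ m (u a) x - iteratedFDeriv ℝ m (u b) x‖)
        atTop (𝓝 (‖x‖ ^ k * ‖iteratedFDeriv ℝ m (u a) x - p x m‖)) :=
      ((tendsto_const_nhds.sub (hp x m)).norm).const_mul _
    refine le_of_tendsto h1 ?_
    filter_upwards [eventually_ge_atTop N] with b hb
    rw [← hsub]
    exact (le_seminorm ℝ k m _ x).trans (hN a ha b hb)
  have hunif : ∀ m, TendstoUniformly (fun a x => iteratedFDeriv ℝ m (u a) x) (fun x => p x m)
      atTop := by
    intro m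
    rw [Metric.tendstoUniformly_iff]
    intro ε hε
    obtain ⟨N, hN⟩ := key 0 m (ε / 2) (by positivity)
    filter_upwards [eventually_ge_atTop N] with a ha x
    have := hN a ha x
    rw [pow_zero, one_mul] at this
    rw [dist_comm, dist_eq_norm]
    linarith
  have hT : HasFTaylorSeriesUpTo ∞ (fun x => (p x 0).curry0) p := by
    rw [hasFTaylorSeriesUpTo_top_iff' le_rfl]
    refine ⟨fun _ => rfl, fun m x => ?_⟩
    refine hasFDerivAt_of_tendstoUniformly (l := atTop)
      (f := fun a y => iteratedFDeriv ℝ m (u a) y)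
      (f' := fun a y => (iteratedFDeriv ℝ (m + 1) (u a) y).curryLeft)
      (g' := fun y => (p y (m + 1)).curryLeft) ?_ (fun a y => ?_) (fun y => hp y m) x
    · exact (continuousMultilinearCurryLeftEquiv ℝ (fun _ : Fin (m + 1) => D)
        G).isometry.uniformContinuous.comp_tendstoUniformly (hunif (m + 1))
    · exact ((u a).smooth ⊤).ftaylorSeries.fderiv m (by exact_mod_cast ENat.natCast_lt_top m) y
  have hD : ∀ m x, iteratedFDeriv ℝ m (fun x => (p x 0).curry0) x = p x m := fun m x =>
    (hT.eq_iteratedFDeriv (by exact_mod_cast le_top) x).symm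
  let g : SchwartzMap D G :=
    { toFun := fun x => (p x 0).curry0
      smooth' := hT.contDiff
      decay' := fun k m => by
        obtain ⟨N, hN⟩ := key k m 1 one_pos
        refine ⟨SchwartzMap.seminorm ℝ k m (u N) + 1, fun x => ?_⟩
        rw [hD]
        have h1 := hN N le_rfl x
        have h2 := le_seminorm ℝ k m (u N) x
        have h3 : ‖p x m‖ ≤ ‖iteratedFDeriv ℝ m (u N) x‖ + ‖iteratedFDeriv ℝ m (u N) x - p x m‖ := by
          have := norm_sub_le (iteratedFDeriv ℝ m (u N) x) (iteratedFDeriv ℝ m (u N) x - p x m)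
          simpa using this
        have h4 := mul_le_mul_of_nonneg_left h3 (pow_nonneg (norm_nonneg x) k)
        linarith }
  refine ⟨g, ?_⟩
  rw [(schwartz_withSeminorms ℝ D G).tendsto_nhds]
  rintro ⟨k, m⟩ ε hε
  obtain ⟨N, hN⟩ := key k m (ε / 2) (by positivity)
  filter_upwards [eventually_ge_atTop N] with a ha
  have : SchwartzMap.seminorm ℝ k m (u a - g) ≤ ε / 2 := by
    refine seminorm_le_bound ℝ k m _ (by positivity) fun x => ?_
    rw [hsub]
    have : iteratedFDeriv ℝ m g x = p x m := hD m x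
    rw [this]
    exact hN a ha x
  exact lt_of_le_of_lt this (by linarith)

instance schwartzCompleteSpace : CompleteSpace (SchwartzMap D G) := by
  have : (uniformity (SchwartzMap D G)).IsCountablyGenerated :=
    IsUniformAddGroup.uniformity_countably_generated
  refine UniformSpace.complete_of_cauchySeq_tendsto fun u hu => schwartz_exists_limit u ?_
  intro k n ε hε
  have h1 := ((IsUniformAddGroup.cauchy_map_iff_tendsto atTop u).1 hu).2
  have h2 := ((schwartz_withSeminorms ℝ D G).tendsto_nhds _ _).1 h1 (k, n) ε hε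
  rw [prod_atTop_atTop_eq, eventually_atTop] at h2
  obtain ⟨N, hN⟩ := h2
  refine ⟨max N.1 N.2, fun a ha b hb => ?_⟩
  have := hN (a, b) ⟨le_of_max_le_left ha, le_of_max_le_right hb⟩
  simpa using this.le

end General

/-- A sequence that is Cauchy for every norm `nA` converges in Schwartz space. -/
lemma exists_limit_of_nA (u : ℕ → SV)
    (h : ∀ (m : ℕ) (ε : ℝ), 0 < ε → ∃ N, ∀ a ≥ N, ∀ b ≥ N, nA m (u a - u b) ≤ ε) :
    ∃ g, Tendsto u atTop (𝓝 g) := by
  refine schwartz_exists_limit u fun k n ε hε => ?_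
  obtain ⟨C, hC, hb⟩ := seminorm_le_sqrt_nA k n
  obtain ⟨N, hN⟩ := h (k + n + 3) ((ε / C) ^ 2) (by positivity)
  refine ⟨N, fun a ha b hb' => (hb _).trans ?_⟩
  have := Real.sqrt_le_sqrt (hN a ha b hb')
  rw [Real.sqrt_sq (by positivity)] at this
  calc C * √(nA (k + n + 3) (u a - u b)) ≤ C * (ε / C) := by gcongr
    _ = ε := by field_simp

/-- A sequence that is Cauchy in `L²` and bounded in every norm `nA` converges in Schwartz space. -/
lemma exists_limit_of_bdd (u : ℕ → SV) (hb : ∀ m, ∃ C, ∀ a, nA m (u a) ≤ C)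
    (h : ∀ ε : ℝ, 0 < ε → ∃ N, ∀ a ≥ N, ∀ b ≥ N, nA 0 (u a - u b) ≤ ε) :
    ∃ g, Tendsto u atTop (𝓝 g) := by
  refine exists_limit_of_nA u fun m => ?_
  induction m with
  | zero => exact h
  | succ m ih =>
    intro ε hε
    obtain ⟨C, hC⟩ := hb (m + 2)
    have hC0 : 0 ≤ C := (nA_nonneg _ _).trans (hC 0)
    obtain ⟨N, hN⟩ := ih (ε ^ 2 / (4 * C + 1)) (by positivity)
    refine ⟨N, fun a ha b hb' => (nA_interp m _).trans ?_⟩
    have h1 : nA (m + 2) (u a - u b) ≤ 4 * C + 1 := by
      have := nA_sub_le (m + 2) (u a) (u b)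
      linarith [hC a, hC b]
    calc √(nA m (u a - u b)) * √(nA (m + 2) (u a - u b))
        ≤ √(ε ^ 2 / (4 * C + 1)) * √(4 * C + 1) := by
          gcongr
          exact hN a ha b hb'
      _ = ε := by
          rw [← Real.sqrt_mul (by positivity), div_mul_cancel₀ _ (by positivity),
            Real.sqrt_sq hε.le]

section Sums

variable {F : Type*} [AddCommGroup F] [Module ℝ F] [UniformSpace F] [IsUniformAddGroup F]
  [ContinuousSMul ℝ F] [LocallyConvexSpace ℝ F]

/-- Absolute summability in every continuous seminorm gives summability. -/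
lemma summable_of_seminorm [CompleteSpace F] {ι : Type*} {f : ι → F}
    (h : ∀ p : Seminorm ℝ F, Continuous p → Summable fun i => p (f i)) : Summable f := by
  rw [summable_iff_vanishing]
  intro e he
  have hW := PolynormableSpace.withSeminorms ℝ F
  obtain ⟨⟨S, r⟩, hr, hsub⟩ := hW.hasBasis_zero_ball.mem_iff.1 he
  set q : Seminorm ℝ F := S.sup fun p : {p : Seminorm ℝ F // Continuous p} => p.1 with hq
  have hqc : Continuous q := Seminorm.continuous_finsetSup fun p _ => p.2
  obtain ⟨s, hs⟩ := summable_iff_vanishing_norm.1 (h q hqc) r hr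
  refine ⟨s, fun t ht => hsub ?_⟩
  rw [Seminorm.mem_ball_zero]
  refine lt_of_le_of_lt ?_ (hs t ht)
  exact (Finset.le_sum_of_subadditive q (map_zero q).le (map_add_le_add q) t f).trans
    (le_abs_self _)

/-- A continuous seminorm of a sum is at most the sum of bounds. -/
lemma seminorm_hasSum_le {ι : Type*} {f : ι → F} {a : F} (hf : HasSum f a) (p : Seminorm ℝ F)
    (hp : Continuous p) {b : ι → ℝ} {B : ℝ} (hb : HasSum b B) (h : ∀ i, p (f i) ≤ b i) :
    p a ≤ B := by
  refine le_of_tendsto_of_tendsto' ((hp.tendsto a).comp hf) hb fun s => ?_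
  exact (Finset.le_sum_of_subadditive p (map_zero p).le (map_add_le_add p) s f).trans
    (Finset.sum_le_sum fun i _ => h i)

end Sums

end Pool.Agent.MP_187b32_an
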