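import Pool.Agent.MP_187b32_an.Calc.Bridge
import Pool.Agent.MP_187b32_an.Calc.XSob

/-! Evaluation of Schwartz-valued maps at a velocity. -/

set_option autoImplicit false

open Filter Topology MeasureTheory SchwartzMap Pool.Agent.Boltz
open scoped ContDiff

noncomputable section

namespace Pool.Agent.MP_187b32_an

variable {T : Type*} [TopologicalSpace T]

/-- Evaluation at a velocity. -/
def evV (v : E) : SV →L[ℝ] ℝ :=
  (BoundedContinuousFunction.evalCLM ℝ v).comp (toBoundedContinuousFunctionCLM ℝ E ℝ)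

@[simp] lemma evV_apply (v : E) (f : SV) : evV v f = f v := rfl

lemma continuous_evalSV : Continuous fun p : SV × E => p.1 p.2 :=
  (continuous_eval (F := BoundedContinuousFunction E ℝ)).comp
    (f := fun p : SV × E => (toBoundedContinuousFunctionCLM ℝ E ℝ p.1, p.2))
    (((toBoundedContinuousFunctionCLM ℝ E ℝ).continuous.comp continuous_fst).prodMk continuous_snd)

lemma _root_.Pool.Agent.Boltz.HD.eval {γ : ℝ → SV} {a : SV} {t : ℝ} (h : HD γ a t) (v : E) :
    HasDerivAt (fun s => γ s v) (a v) t := (h.clm (evV v)).hasDerivAt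

lemma dX_eval {G : E3 → SV} (hG : Dif G) (i : Fin 3) (x v : E) :
    dX i (fun y => G y v) x = dX i G x v := congrFun (dX_clm hG (evV v) i) x

lemma dXw_eval {G : E3 → SV} (hG : Sm G) (u : List (Fin 3)) (x v : E) :
    dXw u (fun y => G y v) x = dXw u G x v := congrFun (dXw_clm hG (evV v) u) x

lemma _root_.Pool.Agent.Boltz.SmC.eval {g : T → E3 → SV} (hg : SmC g) (v : E) :
    SmC fun s x => g s x v := hg.clm (evV v)

lemma _root_.Pool.Agent.Boltz.Sm.eval {G : E3 → SV} (hG : Sm G) (v : E) :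
    Sm fun x => G x v := hG.clm (evV v)

lemma _root_.Pool.Agent.Boltz.SmD.eval {g g' : ℝ → E3 → SV} (hg : SmD g g') (v : E) :
    SmD (fun s x => g s x v) fun s x => g' s x v := hg.clm (evV v)

lemma fderiv_eval_ev {G : E3 → SV} (hG : Sm G) (i : Fin 3) (x v : E) :
    fderiv ℝ (fun y => G y v) x (ev i) = dX i G x v := by
  rw [← dX_eq_fderiv ((hG.eval v).differentiable x), dX_eval hG.dif]

lemma continuous_eval3 {g : T → E3 → SV} (hg : Continuous fun p : T × E3 => g p.1 p.2) :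
    Continuous fun q : T × E3 × E3 => g q.1 q.2.1 q.2.2 :=
  continuous_evalSV.comp ((hg.comp (f := fun q : T × E3 × E3 => (q.1, q.2.1))
    (by fun_prop)).prodMk (by fun_prop))

/-- A `C^1` curve of smooth Schwartz-valued maps is a `C^1` function of `(s, x, v)`. -/
lemma _root_.Pool.Agent.Boltz.SmD.contDiff_one {g g' : ℝ → E3 → SV} (hg : SmD g g') :
    ContDiff ℝ 1 (fun q : ℝ × E3 × E3 => g q.1 q.2.1 q.2.2) ∧
      ∀ q z : ℝ × E3 × E3, fderiv ℝ (fun q : ℝ × E3 × E3 => g q.1 q.2.1 q.2.2) q z =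
        z.1 * g' q.1 q.2.1 q.2.2 + ∑ i, z.2.1 i * dX i (g q.1) q.2.1 q.2.2 +
          ∑ i, z.2.2 i * dV i (g q.1 q.2.1) q.2.2 :=
  hasFDerivAt_of_partials (g := fun s x v => g s x v) (gs := fun s x v => g' s x v)
    (gx := fun i s x v => dX i (g s) x v) (gv := fun i s x v => dV i (g s x) v)
    (continuous_eval3 hg.sm'.cont)
    (fun i => continuous_eval3 (g := fun s => dX i (g s)) (hg.sm.dX i).cont)
    (fun i => continuous_eval3 (g := fun s x => dV i (g s x)) (hg.sm.clm (dV i)).cont)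
    (fun s x v => (hg.hd s x).eval v)
    (fun i s x v => (hg.sm.dif s i x).eval v) fun i s x v => hasDerivAt_line (g s x) i v

/-- The frame of `E3 × E3`. -/
def frB2 : Fin 3 ⊕ Fin 3 → E3 × E3
  | Sum.inl i => (ev i, 0)
  | Sum.inr j => (0, ev j)

/-- The dual frame of `E3 × E3`. -/
def frL2 : Fin 3 ⊕ Fin 3 → E3 × E3 →L[ℝ] ℝ
  | Sum.inl i => (EuclideanSpace.proj i : E3 →L[ℝ] ℝ).comp (ContinuousLinearMap.fst ℝ E3 E3)
  | Sum.inr j => (EuclideanSpace.proj j : E3 →L[ℝ] ℝ).comp (ContinuousLinearMap.snd ℝ E3 E3)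

lemma frame_six (h : E3 × E3) : ∑ i, frL2 i h • frB2 i = h := by
  obtain ⟨x, v⟩ := h
  simp only [Fintype.sum_sum_type, frL2, frB2]
  refine Prod.ext ?_ ?_
  · simpa [Prod.fst_sum] using sum_coord_ev x
  · simpa [Prod.snd_sum] using sum_coord_ev v

/-- A smooth Schwartz-valued map is a smooth function of `(x, v)`. -/
lemma _root_.Pool.Agent.Boltz.Sm.contDiff_eval {G : E3 → SV} (hG : Sm G) :
    ContDiff ℝ ∞ fun q : E3 × E3 => G q.1 q.2 := by
  refine contDiff_of_frame frB2 frL2 frame_six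
    (fun φ => ∃ H : E3 → SV, Sm H ∧ φ = fun q => H q.1 q.2) ?_ ⟨G, hG, rfl⟩
  rintro φ ⟨H, hH, rfl⟩
  refine ⟨continuous_evalSV.comp ((hH.cont.comp continuous_fst).prodMk continuous_snd), ?_⟩
  rintro (i | j)
  · exact ⟨_, ⟨_, hH.dX i, rfl⟩, fun y => by simpa [frB2] using (hH.dif i y.1).eval y.2⟩
  · exact ⟨_, ⟨_, hH.clm (dV j), rfl⟩, fun y => by
      simpa [frB2] using hasDerivAt_line (H y.1) j y.2⟩

/-- Weighted pointwise bounds of the value and of the velocity derivatives. -/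
lemma weighted_dV_le_nA (p : ℕ) : ∃ C : ℝ, 0 < C ∧ ∀ (f : SV) (v : E),
    (1 + ‖v‖) ^ p * |f v| ≤ C * √(nA (p + 4) f) ∧
      ∀ i, (1 + ‖v‖) ^ p * |dV i f v| ≤ C * √(nA (p + 4) f) := by
  obtain ⟨C, hC, h⟩ := weighted_le_nA p
  refine ⟨C, hC, fun f v => ⟨(h f v).1.trans ?_, fun i => le_trans ?_ (h f v).2⟩⟩
  · gcongr
    exact nA_mono (by omega) f
  · gcongr
    rw [dV_apply]
    simpa [norm_ev] using (fderiv ℝ f v).le_opNorm (ev i)

end Pool.Agent.MP_187b32_an
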