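import Pool.Agent.MP_187b32_an.Herm.Poly
import Pool.Agent.MP_187b32_an.Calc.Cube

/-! Completeness of the Hermite functions in `L²`. -/

set_option autoImplicit false

open Filter Topology MeasureTheory SchwartzMap Pool.Agent.Boltz Complex

noncomputable section

namespace Pool.Agent.MP_187b32_an

/-- An integrable function with vanishing Fourier transform vanishes. -/
lemma ae_zero_of_char {φ : E → ℝ} (hφ : Integrable φ)
    (h : ∀ ξ : E, ∫ v, (φ v : ℂ) * cexp ((inner ℝ v ξ : ℝ) * I) = 0) : φ =ᵐ[volume] 0 := by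
  have hm : AEMeasurable φ volume := hφ.aestronglyMeasurable.aemeasurable
  have := isFiniteMeasure_withDensity_ofReal hφ.hasFiniteIntegral
  have := isFiniteMeasure_withDensity_ofReal hφ.neg.hasFiniteIntegral
  have hint : ∀ {ψ : E → ℝ}, Integrable ψ → ∀ ξ : E,
      Integrable fun v => ψ v • cexp ((inner ℝ v ξ : ℝ) * I) := by
    intro ψ hψ ξ
    refine hψ.smul_of_top_left (β := ℂ) (memLp_top_of_bound (C := 1) ?_ ?_)
    · exact Continuous.aestronglyMeasurable (by fun_prop)
    · exact Eventually.of_forall fun v => by rw [Complex.norm_exp_ofReal_mul_I]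
  have key : volume.withDensity (fun v => ENNReal.ofReal (φ v)) =
      volume.withDensity (fun v => ENNReal.ofReal ((-φ) v)) := by
    refine Measure.ext_of_charFun (funext fun ξ => ?_)
    rw [charFun_apply, charFun_apply,
      integral_withDensity_eq_integral_toReal_smul₀ hm.ennreal_ofReal (by simp),
      integral_withDensity_eq_integral_toReal_smul₀ hm.neg.ennreal_ofReal (by simp),
      ← sub_eq_zero, ← h ξ]
    simp only [ENNReal.toReal_ofReal']
    rw [← integral_sub (hint hφ.pos_part ξ) (hint hφ.neg.pos_part ξ)]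
    congr 1
    funext v
    rw [← sub_smul, Pi.neg_apply, max_zero_sub_max_neg_zero_eq_self, Complex.real_smul]
  have h2 := (withDensity_eq_iff_of_sigmaFinite hm.ennreal_ofReal hm.neg.ennreal_ofReal).1 key
  filter_upwards [h2] with v hv
  have h3 := congrArg ENNReal.toReal hv
  simp only [ENNReal.toReal_ofReal', Pi.neg_apply] at h3
  have := max_zero_sub_max_neg_zero_eq_self (φ v)
  simp only [Pi.zero_apply]
  linarith

lemma inner_pow_mem_PV (ξ : E) (k : ℕ) : (fun v : E => (inner ℝ v ξ : ℝ) ^ k) ∈ PV k := by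
  induction k with
  | zero =>
    simp only [pow_zero]
    exact Filt.base_mem 0
  | succ k ih =>
    have e : (fun v : E => (inner ℝ v ξ : ℝ) ^ (k + 1)) =
        ∑ j, ξ j • mulC j fun v : E => (inner ℝ v ξ : ℝ) ^ k := by
      funext v
      have : (inner ℝ v ξ : ℝ) = ∑ j, ξ j * v j := by simp [PiLp.inner_apply]
      simp only [Finset.sum_apply, Pi.smul_apply, mulC_apply, smul_eq_mul]
      rw [pow_succ']
      nth_rewrite 1 [this]
      rw [Finset.sum_mul]
      exact Finset.sum_congr rfl fun j _ => by ring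
    rw [e]
    exact Submodule.sum_mem _ fun j _ => Submodule.smul_mem _ _ (Filt.mul_mem j ih)

lemma memLp_sqrt_sqM : MemLp (fun v => √(sqM v)) 2 volume := by
  rw [memLp_two_iff_integrable_sq (continuous_sqM.sqrt.aestronglyMeasurable)]
  refine sqMS.integrable.congr (Eventually.of_forall fun v => ?_)
  simp [Real.sq_sqrt (sqM_pos v).le]

lemma exp_mul_sqM_le (c : ℝ) (v : E) :
    Real.exp (c * ‖v‖) * sqM v ≤ Real.exp (2 * c ^ 2) * √(sqM v) := by
  rw [sqM, ← Real.exp_half, ← Real.exp_add, ← Real.exp_add]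
  apply Real.exp_le_exp.2
  nlinarith [sq_nonneg (4 * c - ‖v‖)]

/-- An `L²` function orthogonal to all polynomials times `sqM` vanishes. -/
theorem hermite_complete {f : E → ℝ} (hf : MemLp f 2 volume)
    (h : ∀ n, ∀ g ∈ HP n, ∫ v, f v * g v = 0) : f =ᵐ[volume] 0 := by
  have hint : Integrable fun v => f v * sqM v := by
    have := hf.integrable_mul (sqMS.memLp 2 volume)
    refine this.congr (Eventually.of_forall fun v => by simp)
  have key : (fun v => f v * sqM v) =ᵐ[volume] 0 := by
    refine ae_zero_of_char hint fun ξ => ?_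
    have hb : Integrable fun v => |f v| * sqM v * Real.exp |(inner ℝ v ξ : ℝ)| := by
      have h1 : Integrable fun v => Real.exp (2 * ‖ξ‖ ^ 2) * (|f v| * √(sqM v)) :=
        (hf.abs.integrable_mul memLp_sqrt_sqM).const_mul _
      refine h1.mono' ?_ (Eventually.of_forall fun v => ?_)
      · exact (hf.abs.1.mul continuous_sqM.aestronglyMeasurable).mul
          (Continuous.aestronglyMeasurable (by fun_prop))
      · have hp := sqM_pos v
        rw [Real.norm_of_nonneg (by positivity)]
        have h2 : |(inner ℝ v ξ : ℝ)| ≤ ‖ξ‖ * ‖v‖ := by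
          rw [mul_comm]; exact abs_real_inner_le_norm v ξ
        calc |f v| * sqM v * Real.exp |(inner ℝ v ξ : ℝ)|
            ≤ |f v| * sqM v * Real.exp (‖ξ‖ * ‖v‖) := by gcongr
          _ = |f v| * (Real.exp (‖ξ‖ * ‖v‖) * sqM v) := by ring
          _ ≤ |f v| * (Real.exp (2 * ‖ξ‖ ^ 2) * √(sqM v)) := 
              mul_le_mul_of_nonneg_left (exp_mul_sqM_le _ _) (abs_nonneg _)
          _ = _ := by ring
    have hsum : ∀ v : E, HasSum (fun k : ℕ => |f v| * sqM v * (|(inner ℝ v ξ : ℝ)| ^ k / k.factorial))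
        (|f v| * sqM v * Real.exp |(inner ℝ v ξ : ℝ)|) := fun v => by
      rw [Real.exp_eq_exp_ℝ]
      exact (NormedSpace.expSeries_div_hasSum_exp |(inner ℝ v ξ : ℝ)|).mul_left _
    have main := hasSum_integral_of_dominated_convergence (μ := volume)
      (F := fun (k : ℕ) (v : E) => ((f v * sqM v : ℝ) : ℂ) *
        ((((inner ℝ v ξ : ℝ) : ℂ) * I) ^ k / k.factorial))
      (f := fun v => ((f v * sqM v : ℝ) : ℂ) * cexp ((inner ℝ v ξ : ℝ) * I))
      (fun k v => |f v| * sqM v * (|(inner ℝ v ξ : ℝ)| ^ k / k.factorial))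
      (fun k => (Complex.continuous_ofReal.comp_aestronglyMeasurable hint.1).mul
        (Continuous.aestronglyMeasurable (by fun_prop)))
      (fun k => Eventually.of_forall fun v => by
        simp [abs_of_pos (sqM_pos v)])
      (Eventually.of_forall fun v => (hsum v).summable)
      (by simpa only [(hsum _).tsum_eq] using hb)
      (Eventually.of_forall fun v => by
        rw [Complex.exp_eq_exp_ℂ]
        exact (NormedSpace.expSeries_div_hasSum_exp (((inner ℝ v ξ : ℝ) : ℂ) * I)).mul_left _)
    have hz : ∀ k : ℕ, ∫ v : E, ((f v * sqM v : ℝ) : ℂ) *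
        ((((inner ℝ v ξ : ℝ) : ℂ) * I) ^ k / k.factorial) = 0 := by
      intro k
      obtain ⟨g, hg, hgv⟩ := exists_HP_of_PV _ (inner_pow_mem_PV ξ k)
      have h1 := h k g hg
      have h2 : ∀ v : E, ((f v * sqM v : ℝ) : ℂ) *
          ((((inner ℝ v ξ : ℝ) : ℂ) * I) ^ k / k.factorial) =
          (I ^ k / k.factorial) * ((f v * g v : ℝ) : ℂ) := fun v => by
        rw [hgv]; push_cast; ring
      simp only [h2]
      rw [integral_const_mul, integral_complex_ofReal, h1]
      simp
    simp only [hz] at main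
    exact main.unique hasSum_zero
  filter_upwards [key] with v hv
  exact (mul_eq_zero.1 hv).resolve_right (sqM_pos v).ne'

end Pool.Agent.MP_187b32_an
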